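import Pool.Agent.H718.GE.Mem

/-!
# The orders of the two 2-isogeny Selmer groups of a twist
-/

set_option autoImplicit false

open scoped Classical

namespace Pool.Agent.H718.GE

open Finset Pool.Agent.R413.TI

/-- the sets of primes which satisfy the linear condition -/
noncomputable def kerS (a b : ℤ) (S : Finset ℕ) : Finset (Finset ℕ) :=
  S.powerset.filter fun V => Ker a b S V

theorem CL_finite {a b : ℤ} (hb : b ≠ 0) : (CL a b).Finite := by
  refine Set.Finite.subset (Set.finite_Icc (-|b|) |b|) fun x hx => ?_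
  have h1 : x ∣ b := hx.2.1
  have h2 := Int.natAbs_le_of_dvd_ne_zero h1 hb
  have h3 : |x| ≤ |b| := by
    rw [Int.abs_eq_natAbs, Int.abs_eq_natAbs]
    exact_mod_cast h2
  exact ⟨by linarith [neg_abs_le x], (le_abs_self x).trans h3⟩

theorem one_mem_CL {a b : ℤ} : (1 : ℤ) ∈ CL a b := by
  refine ⟨squarefree_one, one_dvd _, ⟨1, 1, 0, Or.inl one_ne_zero, by push_cast; ring⟩, ?_⟩
  intro p _
  exact ⟨1, 1, 0, Or.inl one_ne_zero, by push_cast; ring⟩

theorem CL_pos {a b : ℤ} (hb : b ≠ 0) : 0 < (CL a b).ncard :=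
  (Set.ncard_pos (CL_finite hb)).2 ⟨1, one_mem_CL⟩

/-- **the order of the group of classes of a twist** -/
theorem card_twist {a b : ℤ} (hb : b ≠ 0) {S : Finset ℕ}
    (hS : ∀ p ∈ S, Spl (b * (a ^ 2 - 4 * b)) p) :
    (CL (a * ((∏ p ∈ S, p : ℕ) : ℤ)) (b * ((∏ p ∈ S, p : ℕ) : ℤ) ^ 2)).ncard =
      (CL a b).ncard * (kerS a b S).card := by
  set f : ℤ × Finset ℕ → ℤ := fun x => x.1 * ((∏ p ∈ x.2, p : ℕ) : ℤ) with hf
  have himg : CL (a * ((∏ p ∈ S, p : ℕ) : ℤ)) (b * ((∏ p ∈ S, p : ℕ) : ℤ) ^ 2) =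
      f '' (CL a b ×ˢ (kerS a b S : Set (Finset ℕ))) := by
    ext b₁
    constructor
    · intro h
      obtain ⟨u, V, hV, hu, husq, rfl⟩ := class_form hb (Dvd.intro _ rfl) hS h.1 h.2.1
      obtain ⟨h1, h2⟩ := (mem_twist hb hS hV hu husq).1 h
      refine ⟨(u, V), ⟨h1, ?_⟩, rfl⟩
      simp only [kerS, coe_filter, mem_powerset]
      exact ⟨hV, h2⟩
    · rintro ⟨⟨u, V⟩, ⟨h1, h2⟩, rfl⟩
      simp only [kerS, coe_filter, mem_powerset] at h2
      exact (mem_twist hb hS h2.1 h1.2.1 h1.1).2 ⟨h1, h2.2⟩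
  have key : ∀ (u : ℤ) (V : Finset ℕ), u ∈ CL a b → V ⊆ S →
      V = S.filter fun p : ℕ => (p : ℤ) ∣ u * ((∏ p ∈ V, p : ℕ) : ℤ) := by
    intro u V hu hV
    ext p
    rw [mem_filter]
    constructor
    · intro hp
      refine ⟨hV hp, Dvd.dvd.mul_left ?_ _⟩
      exact_mod_cast dvd_prod_of_mem (fun p => p) hp
    · rintro ⟨hp, hd⟩
      have hpp := (hS p hp).1
      have hpI : Prime (p : ℤ) := Nat.prime_iff_prime_int.1 hpp
      rcases hpI.dvd_or_dvd hd with h | h
      · exact absurd (h.trans (hu.2.1.trans (Dvd.intro _ rfl))) (hS p hp).ndvd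
      · rw [Int.natCast_dvd_natCast] at h
        obtain ⟨q, hq, hd'⟩ := (Prime.dvd_finsetProd_iff hpp.prime _).1 h
        have h4 : p = q := (Nat.prime_dvd_prime_iff_eq hpp (hS q (hV hq)).1).1 hd'
        exact h4 ▸ hq
  have hinj : Set.InjOn f (CL a b ×ˢ (kerS a b S : Set (Finset ℕ))) := by
    rintro ⟨u, V⟩ ⟨h1, h2⟩ ⟨u', V'⟩ ⟨h1', h2'⟩ heq
    simp only [kerS, coe_filter, mem_powerset] at h2 h2'
    simp only [hf] at heq
    have hVV : V = V' := by
      rw [key u V h1 h2.1, key u' V' h1' h2'.1, heq]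
    subst hVV
    have hP : ((∏ p ∈ V, p : ℕ) : ℤ) ≠ 0 := by
      have := prod_pos (B := b * (a ^ 2 - 4 * b)) (V := V) fun p hp => hS p (h2.1 hp)
      exact_mod_cast this.ne'
    rw [mul_right_cancel₀ hP heq]
  rw [himg, hinj.ncard_image, Set.ncard_prod, Set.ncard_coe_finset]

theorem Spl.dual {a b : ℤ} {p : ℕ} (h : Spl (b * (a ^ 2 - 4 * b)) p) :
    Spl ((a ^ 2 - 4 * b) * ((-2 * a) ^ 2 - 4 * (a ^ 2 - 4 * b))) p := by
  refine ⟨h.1, h.2.1, fun l hl h2 hd => h.2.2 l hl h2 ?_⟩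
  have e : (a ^ 2 - 4 * b) * ((-2 * a) ^ 2 - 4 * (a ^ 2 - 4 * b)) =
      2 ^ 4 * (b * (a ^ 2 - 4 * b)) := by ring
  rw [e] at hd
  have hlI : Prime (l : ℤ) := Nat.prime_iff_prime_int.1 hl
  rcases hlI.dvd_or_dvd hd with h' | h'
  · exfalso
    have h3 := hlI.dvd_of_dvd_pow h'
    have h4 : l ∣ 2 := by exact_mod_cast h3
    exact h2 ((Nat.prime_dvd_prime_iff_eq hl Nat.prime_two).1 h4)
  · exact h'

/-- the bits of the two curves agree -/
theorem fb_dual {a b : ℤ} {p : ℕ} (h : Spl (b * (a ^ 2 - 4 * b)) p) :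
    fb (-2 * a) (a ^ 2 - 4 * b) p = fb a b p := by
  have hF : Fact p.Prime := ⟨h.1⟩
  obtain ⟨e, he⟩ := exists_root h
  obtain ⟨e', he'⟩ := exists_root h.dual
  rw [fb_eq h he, fb_eq h.dual he']
  have h1 : IsSquare e ↔ IsSquare e' := by
    refine sym p (a : ZMod p) (b : ZMod p) e e' h.ne_two (b_ne h) ?_ h.neg_one
      (h.isSq b (Dvd.intro _ rfl)) he ?_
    · have := d_ne h
      push_cast at this
      exact this
    · push_cast at he'
      linear_combination he'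
  unfold qb
  by_cases hs : IsSquare e
  · rw [if_pos hs, if_pos (h1.1 hs)]
  · rw [if_neg hs, if_neg fun h' => hs (h1.2 h')]

theorem kerS_dual {a b : ℤ} {S : Finset ℕ} (hS : ∀ p ∈ S, Spl (b * (a ^ 2 - 4 * b)) p) :
    kerS (-2 * a) (a ^ 2 - 4 * b) S = kerS a b S := by
  unfold kerS
  refine filter_congr fun V _ => ?_
  unfold Ker
  refine forall₂_congr fun s hs => ?_
  rw [fb_dual (hS s hs)]

/-- **the order of the group of classes of the isogenous curve of a twist** -/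
theorem card_twist' {a b : ℤ} (hd : a ^ 2 - 4 * b ≠ 0) {S : Finset ℕ}
    (hS : ∀ p ∈ S, Spl (b * (a ^ 2 - 4 * b)) p) :
    (CL (-2 * (a * ((∏ p ∈ S, p : ℕ) : ℤ))) ((a * ((∏ p ∈ S, p : ℕ) : ℤ)) ^ 2 -
      4 * (b * ((∏ p ∈ S, p : ℕ) : ℤ) ^ 2))).ncard =
      (CL (-2 * a) (a ^ 2 - 4 * b)).ncard * (kerS a b S).card := by
  have h := card_twist (a := -2 * a) (b := a ^ 2 - 4 * b) hd fun p hp => (hS p hp).dual
  rw [kerS_dual hS] at h
  rw [← h]
  congr 2 <;> ring

/-- the matrix of the linear condition -/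
noncomputable def mat (a b : ℤ) (S : Finset ℕ) : Matrix S S (ZMod 2) :=
  Matrix.of fun s j => if (s : ℕ) = j then fb a b s + ∑ l ∈ S.erase s, gb s l else gb s j

theorem sum_bits {S V : Finset ℕ} (hV : V ⊆ S) (F : ℕ → ZMod 2) :
    ∑ j : S, F j * (if (j : ℕ) ∈ V then (1 : ZMod 2) else 0) = ∑ j ∈ V, F j := by
  rw [sum_coe_sort S fun j => F j * (if j ∈ V then (1 : ZMod 2) else 0)]
  simp only [mul_ite, mul_one, mul_zero]
  rw [sum_ite_mem, inter_eq_right.2 hV]

/-- the set of the coordinates that are not zero -/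
noncomputable def toV {S : Finset ℕ} (x : S → ZMod 2) : Finset ℕ :=
  Finset.image (Subtype.val : {s // s ∈ S} → ℕ) (Finset.univ.filter fun s => x s ≠ 0)

theorem mem_toV {S : Finset ℕ} (x : S → ZMod 2) (j : S) : (j : ℕ) ∈ toV x ↔ x j ≠ 0 := by
  unfold toV
  simp

theorem toV_sub {S : Finset ℕ} (x : S → ZMod 2) : toV x ⊆ S := by
  intro j hj
  unfold toV at hj
  obtain ⟨s, -, rfl⟩ := mem_image.1 hj
  exact s.2

theorem bits_toV {S : Finset ℕ} (x : S → ZMod 2) :
    (fun s : S => if (s : ℕ) ∈ toV x then (1 : ZMod 2) else 0) = x := by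
  funext s
  by_cases h : x s = 0
  · rw [if_neg fun h' => (mem_toV x s).1 h' h, h]
  · rw [if_pos ((mem_toV x s).2 h), z2_one _ h]

theorem mem_ker_iff {a b : ℤ} {S V : Finset ℕ} (hV : V ⊆ S) :
    (fun s : S => if (s : ℕ) ∈ V then (1 : ZMod 2) else 0) ∈
      LinearMap.ker (Matrix.toLin' (mat a b S)) ↔ Ker a b S V := by
  rw [LinearMap.mem_ker, Matrix.toLin'_apply]
  have key : ∀ s : S, (mat a b S).mulVec (fun s : S => if (s : ℕ) ∈ V then (1 : ZMod 2) else 0) s =
      ∑ j ∈ V, (if (s : ℕ) = j then fb a b s + ∑ l ∈ S.erase s, gb s l else gb s j) := by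
    intro s
    rw [Matrix.mulVec, dotProduct]
    exact sum_bits hV fun j => if (s : ℕ) = j then fb a b s + ∑ l ∈ S.erase s, gb s l else gb s j
  constructor
  · intro h s hs
    rw [← key ⟨s, hs⟩, h]
    rfl
  · intro h
    funext s
    rw [key s]
    exact h (s : ℕ) s.2

theorem mem_kerS {a b : ℤ} {S V : Finset ℕ} : V ∈ kerS a b S ↔ V ⊆ S ∧ Ker a b S V := by
  unfold kerS
  rw [mem_filter, mem_powerset]

/-- the number of the sets is the order of the kernel of the matrix -/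
theorem card_kerS (a b : ℤ) (S : Finset ℕ) : (kerS a b S).card =
    2 ^ Module.finrank (ZMod 2) (LinearMap.ker (Matrix.toLin' (mat a b S))) := by
  have h1 : Nat.card (LinearMap.ker (Matrix.toLin' (mat a b S))) =
      2 ^ Module.finrank (ZMod 2) (LinearMap.ker (Matrix.toLin' (mat a b S))) := by
    rw [Module.natCard_eq_pow_finrank (K := ZMod 2), Nat.card_zmod]
  rw [← h1]
  let e : {V // V ∈ kerS a b S} ≃ LinearMap.ker (Matrix.toLin' (mat a b S)) :=
    { toFun := fun V => ⟨fun s => if (s : ℕ) ∈ V.1 then 1 else 0,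
        (mem_ker_iff (mem_kerS.1 V.2).1).2 (mem_kerS.1 V.2).2⟩
      invFun := fun x => ⟨toV x.1, mem_kerS.2 ⟨toV_sub _,
        (mem_ker_iff (toV_sub _)).1 (by rw [bits_toV]; exact x.2)⟩⟩
      left_inv := by
        intro V
        apply Subtype.ext
        have hVS := (mem_kerS.1 V.2).1
        ext j
        constructor
        · intro hj
          have hjS := toV_sub _ hj
          have := (mem_toV _ (⟨j, hjS⟩ : S)).1 hj
          by_contra hn
          exact this (if_neg hn)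
        · intro hj
          refine (mem_toV _ (⟨j, hVS hj⟩ : S)).2 ?_
          have h5 : (if j ∈ V.1 then (1 : ZMod 2) else 0) = 1 := if_pos hj
          exact fun h6 => one_ne_zero (h5.symm.trans h6)
      right_inv := by
        intro x
        apply Subtype.ext
        exact bits_toV x.1 }
  rw [← Nat.card_congr e, Nat.card_eq_fintype_card, Fintype.card_coe]

end Pool.Agent.H718.GE
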