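import Pool.Agent.H718.GE.Rec
import Pool.Graph.R_pool_sql_team_seeded_b0a926ef.R413.TI.Trg

/-!
# The law of the dimension of the kernel of the bordered system of a random graph
-/

set_option autoImplicit false

open scoped Classical

namespace Pool.Agent.H718.GE.Cor

open Finset Module
open Pool.Agent.Y759.CX (fr)
open Pool.Agent.Y219.CQ (F Sy sp Ns fr_Ns card_symm card_mod)
open Pool.Agent.H718.GE.Rec (nR card_Sy t_REC)
open Pool.Agent.R413.TI Pool.Agent.R413.TI.TrgP

/-- the number of the graphs -/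
theorem card_graph (n : ℕ) : Nat.card (SimpleGraph (Fin n)) = 2 ^ (n.choose 2) := by
  let e : SimpleGraph (Fin n) ≃ Set {e : Sym2 (Fin n) // ¬ e.IsDiag} :=
    { toFun := fun G => {e | e.1 ∈ G.edgeSet}
      invFun := fun T => SimpleGraph.fromEdgeSet (Subtype.val '' T)
      left_inv := by
        intro G
        have : Subtype.val '' {e : {e : Sym2 (Fin n) // ¬ e.IsDiag} | e.1 ∈ G.edgeSet} =
            G.edgeSet := by
          ext e
          constructor
          · rintro ⟨x, hx, rfl⟩
            exact hx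
          · intro he
            exact ⟨⟨e, G.not_isDiag_of_mem_edgeSet he⟩, he, rfl⟩
        show SimpleGraph.fromEdgeSet _ = G
        rw [this, SimpleGraph.fromEdgeSet_edgeSet]
      right_inv := by
        intro T
        ext e
        show e.1 ∈ (SimpleGraph.fromEdgeSet (Subtype.val '' T)).edgeSet ↔ e ∈ T
        rw [SimpleGraph.edgeSet_fromEdgeSet]
        constructor
        · rintro ⟨⟨x, hx, hxe⟩, -⟩
          rw [← Subtype.ext hxe]
          exact hx
        · intro he
          exact ⟨⟨e, he, rfl⟩, e.2⟩ }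
  rw [Nat.card_congr e, Nat.card_eq_fintype_card, Fintype.card_set, Sym2.card_subtype_not_diag,
    Fintype.card_fin]

variable {n : ℕ}

/-- the number of the solutions of the system of a graph -/
noncomputable def nA (w : Fin n → ZMod 2) (G : SimpleGraph (Fin n)) : ℕ :=
  Nat.card {y : Fin n → ZMod 2 // ∀ j, w j * y j + lap G y j = 0}

/-- the number of the solutions of the bordered system of a graph -/
noncomputable def nB (w : Fin n → ZMod 2) (G : SimpleGraph (Fin n)) (v : Fin n → ZMod 2) : ℕ :=
  Nat.card {x : ZMod 2 × (Fin n → ZMod 2) // ∑ i, w i * x.2 i = 0 ∧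
    ∀ i, w i * x.1 + (v i + w i) * x.2 i + lap G x.2 i = 0}

theorem nB_eq {w : Fin n → ZMod 2} (hw : ∑ i, w i = 1) (G : SimpleGraph (Fin n))
    (v : Fin n → ZMod 2) : nB w G v = nA w (Phi w v G) := by
  refine Nat.card_congr
    { toFun := fun x => ⟨x.1.2, ?_⟩
      invFun := fun y => ⟨(∑ k, v k * y.1 k, y.1), ?_⟩
      left_inv := ?_
      right_inv := fun _ => rfl }
  · obtain ⟨⟨x₀, x⟩, hx, hk⟩ := x
    simp only at hx hk ⊢
    have h1 : x₀ = ∑ k, v k * x k := by
      have h2 : ∑ i, (w i * x₀ + (v i + w i) * x i + lap G x i) = 0 := sum_eq_zero fun i _ => hk i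
      rw [sum_add_distrib, lap_sum, add_zero, sum_add_distrib, ← sum_mul, hw, one_mul] at h2
      have h3 : ∑ i, (v i + w i) * x i = ∑ k, v k * x k := by
        have h4 : ∀ i, (v i + w i) * x i = v i * x i + w i * x i := fun i => by ring
        rw [sum_congr rfl fun i _ => h4 i, sum_add_distrib, hx, add_zero]
      rw [h3] at h2
      have h5 : x₀ + ∑ k, v k * x k + ∑ k, v k * x k = ∑ k, v k * x k := by rw [h2, zero_add]
      rwa [add_assoc, dbl, add_zero] at h5
    intro j
    rw [lap_Phi hw G hx, ← h1]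
    have h3 : w j * x₀ + (v j + w j) * x j + lap G x j = 0 := hk j
    rw [← h3]
    ring
  · have hy := y.2
    have h1 : ∑ i, w i * y.1 i = 0 := by
      have h2 : ∑ j, (w j * y.1 j + lap (Phi w v G) y.1 j) = 0 := sum_eq_zero fun j _ => hy j
      rw [sum_add_distrib, lap_sum, add_zero] at h2
      exact h2
    refine ⟨h1, fun i => ?_⟩
    have h2 := hy i
    rw [lap_Phi hw G h1] at h2
    show w i * (∑ k, v k * y.1 k) + (v i + w i) * y.1 i + lap G y.1 i = 0
    linear_combination h2
  · rintro ⟨⟨x₀, x⟩, hx, hk⟩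
    apply Subtype.ext
    simp only at hx hk ⊢
    have h1 : x₀ = ∑ k, v k * x k := by
      have h2 : ∑ i, (w i * x₀ + (v i + w i) * x i + lap G x i) = 0 := sum_eq_zero fun i _ => hk i
      rw [sum_add_distrib, lap_sum, add_zero, sum_add_distrib, ← sum_mul, hw, one_mul] at h2
      have h3 : ∑ i, (v i + w i) * x i = ∑ k, v k * x k := by
        have h4 : ∀ i, (v i + w i) * x i = v i * x i + w i * x i := fun i => by ring
        rw [sum_congr rfl fun i _ => h4 i, sum_add_distrib, hx, add_zero]
      rw [h3] at h2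
      have h5 : x₀ + ∑ k, v k * x k + ∑ k, v k * x k = ∑ k, v k * x k := by rw [h2, zero_add]
      rwa [add_assoc, dbl, add_zero] at h5
    rw [← h1]

/-- the space of the form -/
def Vw (w : Fin n → ZMod 2) : Submodule (ZMod 2) (Fin n → ZMod 2) where
  carrier := {x | ∑ i, w i * x i = 0}
  zero_mem' := by simp
  add_mem' := by
    intro x y hx hy
    show ∑ i, w i * (x i + y i) = 0
    simp only [mul_add, sum_add_distrib]
    rw [show ∑ i, w i * x i = 0 from hx, show ∑ i, w i * y i = 0 from hy, add_zero]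
  smul_mem' := by
    intro c x hx
    show ∑ i, w i * (c * x i) = 0
    have : ∀ i, w i * (c * x i) = c * (w i * x i) := fun i => by ring
    rw [sum_congr rfl fun i _ => this i, ← mul_sum, show ∑ i, w i * x i = 0 from hx, mul_zero]

theorem mem_Vw {w x : Fin n → ZMod 2} : x ∈ Vw w ↔ ∑ i, w i * x i = 0 := Iff.rfl

theorem lap_add (G : SimpleGraph (Fin n)) (x y : Fin n → ZMod 2) (j : Fin n) :
    lap G (x + y) j = lap G x j + lap G y j := by
  unfold lap
  rw [← sum_add_distrib]
  refine sum_congr rfl fun k _ => ?_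
  simp only [Pi.add_apply]
  ring

theorem lap_smul (G : SimpleGraph (Fin n)) (c : ZMod 2) (x : Fin n → ZMod 2) (j : Fin n) :
    lap G (c • x) j = c * lap G x j := by
  unfold lap
  rw [mul_sum]
  refine sum_congr rfl fun k _ => ?_
  simp only [Pi.smul_apply, smul_eq_mul]
  ring

theorem lap_symm (G : SimpleGraph (Fin n)) (x y : Fin n → ZMod 2) :
    ∑ j, lap G x j * y j = ∑ j, lap G y j * x j := by
  have h : ∀ x y : Fin n → ZMod 2, ∑ j, lap G x j * y j =
      ∑ j, ∑ k, (if G.Adj j k then (1 : ZMod 2) else 0) * (x k * y j) +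
        ∑ j, ∑ k, (if G.Adj j k then (1 : ZMod 2) else 0) * (x j * y j) := by
    intro x y
    rw [← sum_add_distrib]
    refine sum_congr rfl fun j _ => ?_
    unfold lap
    rw [sum_mul, ← sum_add_distrib]
    refine sum_congr rfl fun k _ => ?_
    ring
  rw [h x y, h y x]
  congr 1
  · rw [sum_comm]
    refine sum_congr rfl fun j _ => sum_congr rfl fun k _ => ?_
    rw [mul_comm (x j)]
    congr 1
    exact if_congr (G.adj_comm k j) rfl rfl
  · refine sum_congr rfl fun j _ => sum_congr rfl fun k _ => ?_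
    rw [mul_comm (x j)]

/-- the operator of the system -/
noncomputable def op (w : Fin n → ZMod 2) (G : SimpleGraph (Fin n)) (x : Fin n → ZMod 2)
    (j : Fin n) : ZMod 2 := w j * x j + lap G x j

theorem op_add (w : Fin n → ZMod 2) (G : SimpleGraph (Fin n)) (x y : Fin n → ZMod 2) (j : Fin n) :
    op w G (x + y) j = op w G x j + op w G y j := by
  unfold op
  rw [lap_add, Pi.add_apply]
  ring

theorem op_smul (w : Fin n → ZMod 2) (G : SimpleGraph (Fin n)) (c : ZMod 2) (x : Fin n → ZMod 2)
    (j : Fin n) : op w G (c • x) j = c * op w G x j := by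
  unfold op
  rw [lap_smul, Pi.smul_apply, smul_eq_mul]
  ring

theorem op_symm (w : Fin n → ZMod 2) (G : SimpleGraph (Fin n)) (x y : Fin n → ZMod 2) :
    ∑ j, op w G x j * y j = ∑ j, op w G y j * x j := by
  unfold op
  simp only [add_mul, sum_add_distrib]
  rw [lap_symm]
  congr 1
  exact sum_congr rfl fun j _ => by ring

theorem op_sum (w : Fin n → ZMod 2) (G : SimpleGraph (Fin n)) (x : Fin n → ZMod 2) :
    ∑ j, op w G x j = ∑ j, w j * x j := by
  unfold op
  rw [sum_add_distrib, lap_sum, add_zero]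

/-- the form of a graph -/
noncomputable def Bf (w : Fin n → ZMod 2) (G : SimpleGraph (Fin n)) : Sy (Vw w) :=
  ⟨LinearMap.mk₂ (ZMod 2) (fun x y : Vw w => ∑ j, op w G x.1 j * y.1 j)
    (fun x x' y => by
      rw [← sum_add_distrib]
      refine sum_congr rfl fun j _ => ?_
      have : op w G (x + x' : Vw w).1 j = op w G x.1 j + op w G x'.1 j := op_add w G x.1 x'.1 j
      rw [this, add_mul])
    (fun c x y => by
      rw [smul_eq_mul, mul_sum]
      refine sum_congr rfl fun j _ => ?_
      have : op w G (c • x : Vw w).1 j = c * op w G x.1 j := op_smul w G c x.1 j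
      rw [this, mul_assoc])
    (fun x y y' => by
      rw [← sum_add_distrib]
      refine sum_congr rfl fun j _ => ?_
      exact mul_add _ _ _)
    (fun c x y => by
      rw [smul_eq_mul, mul_sum]
      refine sum_congr rfl fun j _ => ?_
      show op w G x.1 j * (c * y.1 j) = c * (op w G x.1 j * y.1 j)
      ring),
    fun x y => op_symm w G x.1 y.1⟩

theorem Bf_apply (w : Fin n → ZMod 2) (G : SimpleGraph (Fin n)) (x y : Vw w) :
    (Bf w G).1 x y = ∑ j, op w G x.1 j * y.1 j := rfl

/-- decomposition of a unit vector -/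
theorem unit_mem {w : Fin n → ZMod 2} (hw : ∑ i, w i = 1) (j : Fin n) :
    (Pi.single j 1 + w j • (1 : Fin n → ZMod 2) : Fin n → ZMod 2) ∈ Vw w := by
  rw [mem_Vw]
  have h1 : ∀ i, w i * ((Pi.single j 1 + w j • (1 : Fin n → ZMod 2) : Fin n → ZMod 2) i) =
      (if i = j then w i else 0) + w i * w j := by
    intro i
    rw [Pi.add_apply, Pi.smul_apply, Pi.one_apply, smul_eq_mul, mul_one, mul_add, Pi.single_apply]
    split_ifs <;> simp
  rw [sum_congr rfl fun i _ => h1 i, sum_add_distrib, ← sum_mul, hw, one_mul, sum_ite_eq',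
    if_pos (mem_univ j), dbl]

/-- a vector with sum zero which is orthogonal to the space vanishes -/
theorem eq_zero_of {w : Fin n → ZMod 2} (hw : ∑ i, w i = 1) {u : Fin n → ZMod 2}
    (h0 : ∑ j, u j = 0) (h : ∀ y ∈ Vw w, ∑ j, u j * y j = 0) : u = 0 := by
  funext j
  have h1 := h _ (unit_mem hw j)
  have h2 : ∀ i, u i * ((Pi.single j 1 + w j • (1 : Fin n → ZMod 2) : Fin n → ZMod 2) i) =
      (if i = j then u i else 0) + u i * w j := by
    intro i
    rw [Pi.add_apply, Pi.smul_apply, Pi.one_apply, smul_eq_mul, mul_one, mul_add, Pi.single_apply]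
    split_ifs <;> simp
  rw [sum_congr rfl fun i _ => h2 i, sum_add_distrib, ← sum_mul, h0, zero_mul, add_zero,
    sum_ite_eq', if_pos (mem_univ j)] at h1
  exact h1

theorem nA_eq {w : Fin n → ZMod 2} (hw : ∑ i, w i = 1) (G : SimpleGraph (Fin n)) :
    nA w G = nR (Bf w G) := by
  refine Nat.card_congr
    { toFun := fun y => ⟨⟨y.1, ?_⟩, ?_⟩
      invFun := fun x => ⟨x.1.1, ?_⟩
      left_inv := fun _ => rfl
      right_inv := fun _ => rfl }
  · rw [mem_Vw, ← op_sum w G]
    exact sum_eq_zero fun j _ => y.2 j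
  · intro z
    rw [Bf_apply]
    refine sum_eq_zero fun j _ => ?_
    have : op w G y.1 j = 0 := y.2 j
    show op w G y.1 j * z.1 j = 0
    rw [this, zero_mul]
  · have h1 : (fun j => op w G x.1.1 j) = 0 := by
      refine eq_zero_of hw ?_ ?_
      · rw [op_sum]
        exact x.1.2
      · intro y hy
        exact x.2 ⟨y, hy⟩
    intro j
    exact congrFun h1 j

theorem op_one (w : Fin n → ZMod 2) (G : SimpleGraph (Fin n)) (j : Fin n) : op w G 1 j = w j := by
  unfold op lap
  simp only [Pi.one_apply, mul_one]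
  rw [sum_eq_zero fun k _ => by rw [dbl, mul_zero], add_zero]

theorem op_single (w : Fin n → ZMod 2) (G : SimpleGraph (Fin n)) {i j : Fin n} (hij : i ≠ j) :
    op w G (Pi.single i 1) j = if G.Adj j i then 1 else 0 := by
  unfold op lap
  rw [Pi.single_eq_of_ne hij.symm, mul_zero, zero_add]
  simp only [add_zero, Pi.single_apply, mul_ite, mul_one, mul_zero]
  rw [sum_ite_eq', if_pos (mem_univ i)]

theorem Bf_inj {w : Fin n → ZMod 2} (hw : ∑ i, w i = 1) : Function.Injective (Bf w) := by
  intro G H h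
  -- the operators agree on the space
  have h1 : ∀ x ∈ Vw w, ∀ j, op w G x j = op w H x j := by
    intro x hx
    have h2 : (fun j => op w G x j + op w H x j) = 0 := by
      refine eq_zero_of hw ?_ ?_
      · rw [sum_add_distrib, op_sum, op_sum, dbl]
      · intro y hy
        simp only [add_mul, sum_add_distrib]
        have h3 := Bf_apply w G ⟨x, hx⟩ ⟨y, hy⟩
        have h4 := Bf_apply w H ⟨x, hx⟩ ⟨y, hy⟩
        rw [← h3, ← h4, h, dbl]
    intro j
    have h5 : op w G x j + op w H x j = 0 := congrFun h2 j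
    have h6 : op w G x j + op w H x j + op w H x j = op w H x j := by rw [h5, zero_add]
    rwa [add_assoc, dbl, add_zero] at h6
  have h2 : ∀ i j, op w G (Pi.single i 1) j = op w H (Pi.single i 1) j := by
    intro i j
    have h3 := h1 _ (unit_mem hw i) j
    rw [op_add, op_add, op_smul, op_smul, op_one, op_one] at h3
    exact add_right_cancel h3
  ext i j
  by_cases hij : i = j
  · subst hij
    simp
  · have h3 := h2 j i
    rw [op_single w G (Ne.symm hij), op_single w H (Ne.symm hij)] at h3
    by_cases hG : G.Adj i j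
    · rw [if_pos hG] at h3
      by_cases hH : H.Adj i j
      · exact iff_of_true hG hH
      · rw [if_neg hH] at h3
        exact absurd h3 one_ne_zero
    · rw [if_neg hG] at h3
      by_cases hH : H.Adj i j
      · rw [if_pos hH] at h3
        exact absurd h3.symm one_ne_zero
      · exact iff_of_false hG hH

theorem finrank_Vw {w : Fin n → ZMod 2} (hw : ∑ i, w i = 1) :
    finrank (ZMod 2) (Vw w) + 1 = n := by
  let f : (Fin n → ZMod 2) →ₗ[ZMod 2] ZMod 2 :=
    { toFun := fun x => ∑ i, w i * x i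
      map_add' := fun x y => by
        simp only [Pi.add_apply, mul_add, sum_add_distrib]
      map_smul' := fun c x => by
        simp only [Pi.smul_apply, smul_eq_mul, RingHom.id_apply, mul_sum]
        exact sum_congr rfl fun i _ => by ring }
  have hk : LinearMap.ker f = Vw w := by
    ext x
    rw [LinearMap.mem_ker]
    rfl
  have hr : LinearMap.range f = ⊤ := by
    rw [LinearMap.range_eq_top]
    intro c
    refine ⟨c • (1 : Fin n → ZMod 2), ?_⟩
    show ∑ i, w i * (c * 1) = c
    rw [← sum_mul, hw]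
    ring
  have h1 := LinearMap.finrank_range_add_finrank_ker f
  rw [hr, hk, finrank_top, Module.finrank_self, Module.finrank_pi, Fintype.card_fin] at h1
  omega

theorem card_eq {w : Fin n → ZMod 2} (hw : ∑ i, w i = 1) :
    Nat.card (SimpleGraph (Fin n)) = Nat.card (Sy (Vw w)) := by
  have h1 := finrank_Vw hw
  obtain ⟨m, hm⟩ : ∃ m, m = finrank (ZMod 2) (Vw w) := ⟨_, rfl⟩
  rw [card_Sy, card_graph]
  have h2 : finrank Pool.Agent.Y219.CQ.F (Vw w) = m := hm.symm
  rw [h2]
  rw [← hm] at h1
  rw [← h1, Nat.choose_two_right, Nat.add_sub_cancel, mul_comm]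

/-- the frequency of the number of solutions -/
theorem prob_nA {w : Fin n → ZMod 2} (hw : ∑ i, w i = 1) (c : ℕ) :
    (Nat.card {G : SimpleGraph (Fin n) // nA w G = c} : ℝ) / Nat.card (SimpleGraph (Fin n)) =
      fr (fun S : Sy (Vw w) => nR S = c) := by
  have hbij : Function.Bijective (Bf w) := by
    have : Fintype (Sy (Vw w)) := Fintype.ofFinite _
    rw [Fintype.bijective_iff_injective_and_card]
    refine ⟨Bf_inj hw, ?_⟩
    rw [← Nat.card_eq_fintype_card, ← Nat.card_eq_fintype_card, card_eq hw]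
  unfold fr
  rw [card_eq hw]
  congr 2
  exact Nat.card_congr (Equiv.subtypeEquiv (Equiv.ofBijective _ hbij) fun G => by
    rw [nA_eq hw]
    rfl)

/-- the frequency for the bordered system -/
theorem prob_nB {w : Fin n → ZMod 2} (hw : ∑ i, w i = 1) (v : Fin n → ZMod 2) (c : ℕ) :
    (Nat.card {G : SimpleGraph (Fin n) // nB w G v = c} : ℝ) / Nat.card (SimpleGraph (Fin n)) =
      fr (fun S : Sy (Vw w) => nR S = c) := by
  rw [← prob_nA hw c]
  congr 2
  exact Nat.card_congr (Equiv.subtypeEquiv ((Phi_inv w v).toPerm (Phi w v)) fun G => by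
    rw [nB_eq hw]
    rfl)

/-- the probability that a random symmetric `m × m` matrix over `𝔽₂` has corank `k` -/
noncomputable def law (m k : ℕ) : ℝ :=
  (∏ i ∈ range ((m - k + 1) / 2), (1 - (1 / 2 : ℝ) ^ (2 * i + 1))) *
    ∏ i ∈ range k, (1 - (1 / 2 : ℝ) ^ (m - i)) / (2 ^ (i + 1) - 1)

theorem law_zero (m : ℕ) : law m 0 = sp m := by
  unfold law sp
  rw [range_zero, prod_empty, mul_one, Nat.sub_zero]

theorem law_zero_succ (k : ℕ) : law 0 (k + 1) = 0 := by
  unfold law
  rw [prod_range_succ']
  simp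

theorem law_succ (m k : ℕ) : ((2 : ℝ) ^ (k + 1) - 1) * law (m + 1) (k + 1) =
    (1 - (1 / 2 : ℝ) ^ (m + 1)) * law m k := by
  have h0 : ((2 : ℝ) ^ (k + 1) - 1) ≠ 0 := by
    have : (2 : ℝ) ≤ 2 ^ (k + 1) := by
      have := one_le_pow₀ (one_le_two (α := ℝ)) (n := k)
      rw [pow_succ]
      linarith
    linarith
  unfold law
  rw [Nat.add_sub_add_right, prod_div_distrib, prod_div_distrib, prod_range_succ' (fun i =>
    (1 - (1 / 2 : ℝ) ^ (m + 1 - i))), prod_range_succ (fun i => ((2 : ℝ) ^ (i + 1) - 1))]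
  have h1 : ∀ i, m + 1 - (i + 1) = m - i := fun i => by omega
  simp only [h1, Nat.sub_zero]
  field_simp

theorem nR_pos {V : Type} [AddCommGroup V] [Module (ZMod 2) V] [Finite V] (S : Sy V) :
    nR S = 1 ↔ Ns S.1 := by
  unfold nR
  rw [Nat.card_eq_one_iff_unique]
  constructor
  · rintro ⟨h, -⟩ x hx
    have := h.elim (⟨x, hx⟩ : {x : V // ∀ y, S.1 x y = 0}) ⟨0, fun y => by
      rw [map_zero, LinearMap.zero_apply]⟩
    exact congrArg Subtype.val this
  · intro h
    refine ⟨⟨fun x y => Subtype.ext ?_⟩, ⟨⟨0, fun y => by rw [map_zero, LinearMap.zero_apply]⟩⟩⟩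
    rw [h x.1 x.2, h y.1 y.2]

/-- **the law of the radical of a random symmetric form** -/
theorem fr_nR (hsym : Pool.Agent.Y703.CQ.S_SYM) (k : ℕ) : ∀ (V : Type) [AddCommGroup V]
    [Module (ZMod 2) V] [Finite V],
    fr (fun S : Sy V => nR S = 2 ^ k) = law (finrank (ZMod 2) V) k := by
  induction k with
  | zero =>
    intro V _ _ _
    rw [law_zero, ← fr_Ns hsym]
    congr 1
    funext S
    rw [pow_zero, nR_pos]
  | succ k ih =>
    intro V _ _ _
    have h0 : ((2 : ℝ) ^ (k + 1) - 1) ≠ 0 := by
      have : (2 : ℝ) ≤ 2 ^ (k + 1) := by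
        have := one_le_pow₀ (one_le_two (α := ℝ)) (n := k)
        rw [pow_succ]
        linarith
      linarith
    rcases Nat.eq_zero_or_pos (finrank (ZMod 2) V) with h | h
    · rw [h, law_zero_succ]
      have hc : Nat.card V = 1 := by
        have := card_mod V
        rw [show finrank Pool.Agent.Y219.CQ.F V = 0 from h, pow_zero] at this
        exact this
      have h1 : ∀ S : Sy V, ¬ nR S = 2 ^ (k + 1) := by
        intro S hS
        have h2 : nR S ≤ Nat.card V := Finite.card_subtype_le _
        rw [hS, hc] at h2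
        have h3 : 2 ≤ 2 ^ (k + 1) := by
          rw [pow_succ]
          have := Nat.one_le_two_pow (n := k)
          omega
        omega
      unfold fr
      rw [Nat.card_eq_zero.2 (Or.inl ⟨fun S => h1 S.1 S.2⟩), Nat.cast_zero, zero_div]
    · obtain ⟨m, hm⟩ : ∃ m, finrank (ZMod 2) V = m + 1 := ⟨_, (Nat.succ_pred_eq_of_pos h).symm⟩
      have h1 := t_REC V (Fin m → ZMod 2) k (by
        rw [Module.finrank_pi, Fintype.card_fin]
        exact hm)
      rw [show fr (fun S : Sy (Fin m → ZMod 2) => nR S = 2 ^ k) = law m k from by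
        rw [ih (Fin m → ZMod 2), Module.finrank_pi, Fintype.card_fin]] at h1
      rw [show finrank Pool.Agent.Y219.CQ.F V = m + 1 from hm, ← law_succ] at h1
      rw [hm]
      exact mul_left_cancel₀ h0 h1

end Pool.Agent.H718.GE.Cor
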