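import Pool.Agent.H718.GE.Law

/-!
# Definitions: the 2-isogeny Selmer rank of a curve and of its twists by split primes
-/

set_option autoImplicit false

open scoped Classical

namespace Pool.Agent.H718.GE.D

open Finset Function

/-- the binary quartic form `b₁ M⁴ + a M² e² + b₂ e⁴` -/
def quartic {K : Type} [Field K] (a b₁ b₂ : ℤ) (M e : K) : K :=
  (b₁ : K) * M ^ 4 + (a : K) * M ^ 2 * e ^ 2 + (b₂ : K) * e ^ 4

/-- the quartic `N² = b₁ M⁴ + a M² e² + b₂ e⁴` has a nontrivial solution over `K` -/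
def Solvable (K : Type) [Field K] (a b₁ b₂ : ℤ) : Prop :=
  ∃ N M e : K, (M ≠ 0 ∨ e ≠ 0) ∧ N ^ 2 = quartic a b₁ b₂ M e

/-- the classes of the problem: the squarefree divisors `b₁` of `b` whose quartic
`N² = b₁ M⁴ + a M² e² + (b / b₁) e⁴` is solvable over `ℝ` and over all `ℚ_p` -/
def classes (a b : ℤ) : Set ℤ :=
  {b₁ : ℤ | Squarefree b₁ ∧ b₁ ∣ b ∧ Solvable ℝ a b₁ (b / b₁) ∧
    ∀ (p : ℕ) [Fact p.Prime], Solvable ℚ_[p] a b₁ (b / b₁)}

/-- the classes for the isogenous curve -/
def classes' (a b : ℤ) : Set ℤ := classes (-2 * a) (a ^ 2 - 4 * b)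

/-- the exponent `f₁` of the problem -/
noncomputable def f₁ (a b : ℤ) : ℕ := Nat.log 2 (classes a b).ncard

/-- the exponent `f₂` of the problem -/
noncomputable def f₂ (a b : ℤ) : ℕ := Nat.log 2 (classes' a b).ncard

/-- the 2-Selmer rank `s = f₁ + f₂ - 2` of `y² = x³ + a x² + b x` -/
noncomputable def srank (a b : ℤ) : ℤ := (f₁ a b : ℤ) + f₂ a b - 2

/-- the rank of `y² = x³ + a x² + b x` over `ℚ` -/
noncomputable def rank (a b : ℤ) : ℕ :=
  Module.finrank ℤ (({ a₁ := 0, a₂ := (a : ℚ), a₃ := 0, a₄ := (b : ℚ), a₆ := 0 } :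
    WeierstrassCurve ℚ).toAffine.Point)

/-- the primes `p ≡ 1` modulo `8` and modulo the odd prime divisors of `b (a² - 4 b)` -/
def Split (a b : ℤ) (p : ℕ) : Prop :=
  p.Prime ∧ p % 8 = 1 ∧ ∀ l : ℕ, l.Prime → l ≠ 2 → (l : ℤ) ∣ b * (a ^ 2 - 4 * b) → p % l = 1

/-- `x⁴ + a x² + b` has a root modulo `p` -/
def HasRoot (a b : ℤ) (p : ℕ) : Prop :=
  ∃ x : ZMod p, x ^ 4 + (a : ZMod p) * x ^ 2 + (b : ZMod p) = 0

/-- `1` if `j` is not a square modulo `s`, `0` otherwise -/
noncomputable def res (s j : ℕ) : ZMod 2 := if IsSquare ((j : ℕ) : ZMod s) then 0 else 1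

/-- `1` if `x⁴ + a x² + b` has no root modulo `s`, `0` otherwise -/
noncomputable def bit (a b : ℤ) (s : ℕ) : ZMod 2 := if HasRoot a b s then 0 else 1

/-- the diagonal of the matrix: the sum of the rest of the row, plus `1` if `x⁴ + a x² + b` has no
root modulo `s` -/
noncomputable def diag (a b : ℤ) (S : Finset ℕ) (s : ℕ) : ZMod 2 :=
  bit a b s + ∑ l ∈ S.erase s, res s l

/-- the matrix of a finite set `S` of primes: off the diagonal the residue symbols -/
noncomputable def matrix (a b : ℤ) (S : Finset ℕ) : Matrix S S (ZMod 2) :=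
  Matrix.of fun s j => if (s : ℕ) = j then diag a b S s else res s j

/-- the corank of the matrix over `𝔽₂` -/
noncomputable def corank (a b : ℤ) (S : Finset ℕ) : ℕ := S.card - (matrix a b S).rank

/-- the product of the primes of a set -/
def prd (S : Finset ℕ) : ℤ := ((∏ p ∈ S, p : ℕ) : ℤ)

/-- the primes up to `X` in the class of `c` modulo `M` -/
noncomputable def primesIn (M c X : ℕ) : Finset ℕ :=
  (range (X + 1)).filter fun p => p.Prime ∧ p % M = c % M

/-- the tuples of distinct primes, the `i`-th one up to `X i` and in the class of `c i` -/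
noncomputable def tuples {n : ℕ} (M : ℕ) (c X : Fin n → ℕ) : Finset (Fin n → ℕ) :=
  (Fintype.piFinset fun i => primesIn M (c i) (X i)).filter Injective

/-- the class of `c` modulo `M` consists of split primes -/
def SplitClass (a b : ℤ) (M c : ℕ) : Prop :=
  Nat.Coprime c M ∧ c % 8 = 1 ∧
    ∀ l : ℕ, l.Prime → l ≠ 2 → (l : ℤ) ∣ b * (a ^ 2 - 4 * b) → c % l = 1

/-- the product `q p₁ ⋯ p_n` -/
def prod {n : ℕ} (q : ℕ) (p : Fin n → ℕ) : ℤ := (q : ℤ) * ∏ i, (p i : ℤ)

/-- the probability that a random symmetric `m × m` matrix over `𝔽₂` is nonsingular -/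
noncomputable def law₀ (m : ℕ) : ℝ := ∏ i ∈ range ((m + 1) / 2), (1 - (1 / 2 : ℝ) ^ (2 * i + 1))

/-- the probability that a random symmetric `m × m` matrix over `𝔽₂` has corank `k` -/
noncomputable def law (m k : ℕ) : ℝ :=
  law₀ (m - k) * ∏ i ∈ range k, (1 - (1 / 2 : ℝ) ^ (m - i)) / (2 ^ (i + 1) - 1)

/-- the ranges `X i` of the primes lie between `z` and `exp (z ^ (1 / (24 n)))` -/
def Range {n : ℕ} (X : Fin n → ℕ) (z : ℕ) : Prop :=
  2 ≤ z ∧ (∀ i, z ≤ X i) ∧ ∀ i, Real.log (X i) ≤ (z : ℝ) ^ (1 / (24 * n : ℝ))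

/-- for the tuples of distinct primes in the classes `c i` modulo `M` the proportion of those with
the property `P` is `δ`, with a power saving -/
def Proportion {n : ℕ} (M : ℕ) (c : Fin n → ℕ) (P : (Fin n → ℕ) → Prop) (δ : ℝ) : Prop :=
  ∃ A : ℝ, 0 ≤ A ∧ ∀ (X : Fin n → ℕ) (z : ℕ), Range X z →
    |(((tuples M c X).filter P).card : ℝ) - δ * ((tuples M c X).card : ℝ)| ≤
      A * (z : ℝ) ^ (-(1 / 24 : ℝ)) * ((tuples M c X).card : ℝ)

/-- `s(E_D) = s(E) + 2 k` for `D = q p₁ ⋯ p_n` -/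
def SelmerGrowth {n : ℕ} (a b : ℤ) (q k : ℕ) (p : Fin n → ℕ) : Prop :=
  srank (a * prod q p) (b * prod q p ^ 2) = srank a b + 2 * k

/-- `r(E_D) = 0` and `s(E_D) = 0` for `D = q p₁ ⋯ p_n` -/
def BothZero {n : ℕ} (a b : ℤ) (q : ℕ) (p : Fin n → ℕ) : Prop :=
  rank (a * prod q p) (b * prod q p ^ 2) = 0 ∧ srank (a * prod q p) (b * prod q p ^ 2) = 0

/-- the exponents of `E_D`, `D` the product of the primes of `S`, are those of `E` plus the corank -/
def ClassGrowth (a b : ℤ) (S : Finset ℕ) : Prop :=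
  f₁ (a * prd S) (b * prd S ^ 2) = f₁ a b + corank a b S ∧
    f₂ (a * prd S) (b * prd S ^ 2) = f₂ a b + corank a b S ∧
    srank (a * prd S) (b * prd S ^ 2) = srank a b + 2 * corank a b S

/-- `s(E) = 0`: the orders `2 ^ f₁` and `2 ^ f₂` have the product `4` -/
def SelmerZero (a b : ℤ) : Prop :=
  (classes a b).ncard * (classes' a b).ncard = 4

/-- an odd number of the `c i` are nonresidues modulo `q` -/
def OddNonresidues {n : ℕ} (q : ℕ) (c : Fin n → ℕ) : Prop :=
  Odd (univ.filter fun i => ¬ IsSquare ((c i : ℕ) : ZMod q)).card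

/-- `8 b (a² - 4 b)` and `q` divide `M`, the classes of the `c i` modulo `M` consist of split primes,
and an odd number of the `c i` are nonresidues modulo `q` -/
def Admissible {n : ℕ} (a b : ℤ) (q M : ℕ) (c : Fin n → ℕ) : Prop :=
  0 < M ∧ 8 ∣ M ∧ b * (a ^ 2 - 4 * b) ∣ (M : ℤ) ∧ q ∣ M ∧ (∀ i, SplitClass a b M (c i)) ∧
    OddNonresidues q c

theorem log_mul {m k : ℕ} (hm : 0 < m) : Nat.log 2 (m * 2 ^ k) = Nat.log 2 m + k := by
  induction k with
  | zero => simp
  | succ k ih =>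
    rw [pow_succ, ← mul_assoc, Nat.log_mul_base one_lt_two (by positivity), ih]
    rfl

theorem finrank_ker (a b : ℤ) (S : Finset ℕ) : Module.finrank (ZMod 2)
    (LinearMap.ker (Matrix.toLin' (Pool.Agent.H718.GE.mat a b S))) = corank a b S := by
  have h1 : Pool.Agent.H718.GE.mat a b S = matrix a b S := rfl
  have h2 := LinearMap.finrank_range_add_finrank_ker (Matrix.toLin' (matrix a b S))
  rw [Module.finrank_pi, Fintype.card_coe] at h2
  have h3 : (matrix a b S).rank =
      Module.finrank (ZMod 2) (LinearMap.range (Matrix.toLin' (matrix a b S))) := rfl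
  unfold corank
  rw [h1]
  omega

theorem ncards {a b : ℤ} (hb : b ≠ 0) (hd : a ^ 2 - 4 * b ≠ 0) {S : Finset ℕ}
    (hS : ∀ p ∈ S, Split a b p) :
    (classes (a * prd S) (b * prd S ^ 2)).ncard = (classes a b).ncard * 2 ^ corank a b S ∧
      (classes' (a * prd S) (b * prd S ^ 2)).ncard =
        (classes' a b).ncard * 2 ^ corank a b S := by
  have h1 := Pool.Agent.H718.GE.card_twist hb hS
  have h2 := Pool.Agent.H718.GE.card_twist' hd hS
  rw [Pool.Agent.H718.GE.card_kerS] at h1 h2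
  have h3 := finrank_ker a b S
  rw [h3] at h1 h2
  exact ⟨h1, h2⟩

theorem growth {a b : ℤ} (hb : b ≠ 0) (hd : a ^ 2 - 4 * b ≠ 0) {S : Finset ℕ}
    (hS : ∀ p ∈ S, Split a b p) :
    f₁ (a * prd S) (b * prd S ^ 2) = f₁ a b + corank a b S ∧
      f₂ (a * prd S) (b * prd S ^ 2) = f₂ a b + corank a b S := by
  obtain ⟨h1, h2⟩ := ncards hb hd hS
  constructor
  · unfold f₁
    rw [h1, log_mul]
    exact Pool.Agent.H718.GE.CL_pos hb
  · unfold f₂
    rw [h2, log_mul]
    exact Pool.Agent.H718.GE.CL_pos hd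

theorem srank_twist {a b : ℤ} (hb : b ≠ 0) (hd : a ^ 2 - 4 * b ≠ 0) {S : Finset ℕ}
    (hS : ∀ p ∈ S, Split a b p) :
    srank (a * prd S) (b * prd S ^ 2) = srank a b + 2 * corank a b S := by
  obtain ⟨h1, h2⟩ := growth hb hd hS
  unfold srank
  rw [h1, h2]
  push_cast
  ring

theorem prd_pos {a b : ℤ} {S : Finset ℕ} (hS : ∀ p ∈ S, Split a b p) : prd S ≠ 0 := by
  have h := Pool.Agent.H718.GE.prod_pos (B := b * (a ^ 2 - 4 * b)) (V := S) hS
  unfold prd
  exact_mod_cast h.ne'

/-- the rank is zero if the product of the two orders is four -/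
theorem rank_zero {a b : ℤ} (hb : b ≠ 0) (hd : a ^ 2 - 4 * b ≠ 0)
    (h : (classes a b).ncard * (classes' a b).ncard = 4) :
    rank a b = 0 ∧ srank a b = 0 := by
  constructor
  · have h1 : 4 * 2 ^ rank a b ≤
        (classes a b).ncard * (classes' a b).ncard :=
      Pool.Agent.H718.GE.rank_le hb hd
    rw [h] at h1
    by_contra h2
    have h3 : 2 ^ 1 ≤ 2 ^ rank a b := Nat.pow_le_pow_right (by norm_num) (by omega)
    omega
  · have hd1 : (classes a b).ncard ∣ 4 := Dvd.intro _ h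
    have h1 : (classes a b).ncard ≤ 4 := Nat.le_of_dvd (by norm_num) hd1
    unfold srank f₁ f₂
    set x := (classes a b).ncard with hx
    set y := (classes' a b).ncard with hy
    clear_value x y
    interval_cases x
    · omega
    · have : y = 4 := by omega
      subst this
      have e1 : Nat.log 2 1 = 0 := by decide
      have e2 : Nat.log 2 4 = 2 := by decide
      rw [e1, e2]
      norm_num
    · have : y = 2 := by omega
      subst this
      have e1 : Nat.log 2 2 = 1 := by decide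
      rw [e1]
      norm_num
    · omega
    · have : y = 1 := by omega
      subst this
      have e1 : Nat.log 2 1 = 0 := by decide
      have e2 : Nat.log 2 4 = 2 := by decide
      rw [e1, e2]
      norm_num

/-- the lower bound for the probability -/
theorem law_ge (m : ℕ) : (0.419 : ℝ) < law m 0 := by
  have key : ∀ N : ℕ, (0.41925 : ℝ) * (1 + 3 / 4 * (1 / 4 : ℝ) ^ (N + 4)) ≤
      ∏ i ∈ range (N + 4), (1 - (1 / 2 : ℝ) ^ (2 * i + 1)) := by
    intro N
    induction N with
    | zero =>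
      simp only [zero_add]
      rw [prod_range_succ, prod_range_succ, prod_range_succ, prod_range_one]
      norm_num
    | succ N ih =>
      rw [show N + 1 + 4 = (N + 4) + 1 from rfl, prod_range_succ]
      have e : (1 / 2 : ℝ) ^ (2 * (N + 4) + 1) = 1 / 2 * (1 / 4 : ℝ) ^ (N + 4) := by
        rw [pow_succ, pow_mul]
        norm_num
        ring
      rw [e, pow_succ (1 / 4 : ℝ) (N + 4)]
      have h0 : (0 : ℝ) < (1 / 4 : ℝ) ^ (N + 4) := by positivity
      have h1 : (1 / 4 : ℝ) ^ (N + 4) ≤ 1 / 256 := by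
        have := pow_le_pow_of_le_one (by norm_num : (0 : ℝ) ≤ 1 / 4) (by norm_num)
          (by omega : 4 ≤ N + 4)
        norm_num at this ⊢
        exact this
      set t := (1 / 4 : ℝ) ^ (N + 4) with ht
      have h2 : (0 : ℝ) ≤ 1 - 1 / 2 * t := by linarith
      refine le_trans ?_ (mul_le_mul_of_nonneg_right ih h2)
      nlinarith
  unfold law law₀
  rw [range_zero, prod_empty, mul_one, Nat.sub_zero]
  rcases Nat.lt_or_ge ((m + 1) / 2) 4 with h | h
  · interval_cases ((m + 1) / 2)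
    · rw [range_zero, prod_empty]
      norm_num
    · rw [prod_range_one]
      norm_num
    · rw [prod_range_succ, prod_range_one]
      norm_num
    · rw [prod_range_succ, prod_range_succ, prod_range_one]
      norm_num
  · obtain ⟨N, hN⟩ := Nat.exists_eq_add_of_le h
    rw [hN, add_comm 4 N]
    have h1 := key N
    have h0 : (0 : ℝ) < (1 / 4 : ℝ) ^ (N + 4) := by positivity
    nlinarith

theorem sum_res {n q : ℕ} (c : Fin n → ℕ)
    (h : Odd (univ.filter fun i => ¬ IsSquare ((c i : ℕ) : ZMod q)).card) :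
    ∑ i, Pool.Agent.H718.GE.gb q (c i) = 1 := by
  have h1 : ∑ i, Pool.Agent.H718.GE.gb q (c i) =
      (((univ.filter fun i => ¬ IsSquare ((c i : ℕ) : ZMod q)).card : ℕ) : ZMod 2) := by
    rw [card_filter, Nat.cast_sum]
    refine sum_congr rfl fun i _ => ?_
    unfold Pool.Agent.H718.GE.gb Pool.Agent.H718.GE.qb
    by_cases hs : IsSquare ((c i : ℕ) : ZMod q)
    · simp [hs]
    · simp [hs]
  rw [h1]
  exact (ZMod.natCast_eq_one_iff_odd).2 h

end Pool.Agent.H718.GE.D
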