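import Pool.Graph.R_pool_sql_team_seeded_b0a926ef.R413.TI.Grp
import Pool.Graph.R_pool_sql_team_seeded_b0a926ef.R413.TI.Ima
import Pool.Graph.R_pool_sql_team_seeded_b0a926ef.R413.TI.Imb
import Pool.Graph.R_pool_sql_team_seeded_b0a926ef.R413.TI.Imc
import Pool.Graph.R_pool_sql_team_seeded_3997aac3.Q286.EQ.MW
import Pool.Agent.H718.GE.Card

/-!
# The rank is at most the 2-isogeny Selmer rank
-/

set_option autoImplicit false

open scoped Classical

namespace Pool.Agent.H718.GE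

open Pool.Agent.R413.TI WeierstrassCurve

theorem CE_fin {a b : ℤ} (hb : b ≠ 0) (hd : a ^ 2 - 4 * b ≠ 0) :
    Module.Finite ℤ (CE a b).toAffine.Point := by
  have hΔ : (CE a b).Δ ≠ 0 := by
    have h1 : (b : ℚ) ≠ 0 := Int.cast_ne_zero.2 hb
    have h2 : ((a : ℚ) ^ 2 - 4 * b) ≠ 0 := by exact_mod_cast hd
    have e : (CE a b).Δ = 16 * (b : ℚ) ^ 2 * ((a : ℚ) ^ 2 - 4 * b) := by
      simp only [CE, WeierstrassCurve.Δ, WeierstrassCurve.b₂, WeierstrassCurve.b₄,
        WeierstrassCurve.b₆, WeierstrassCurve.b₈]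
      ring
    rw [e]
    exact mul_ne_zero (mul_ne_zero (by norm_num) (pow_ne_zero 2 h1)) h2
  have h := Pool.Agent.Q286.EQ.mordell_weil (K := ℚ) (CE a b) hΔ
  rw [Module.finite_def]
  exact Module.Finite.iff_addGroup_fg.2 h |>.1

/-- the index of the image is at most the number of the classes -/
theorem index_le {a b : ℤ} (hb : b ≠ 0) (hd : a ^ 2 - 4 * b ≠ 0)
    (H : AddSubgroup (CE a b).toAffine.Point)
    (hH : ∀ P, IsSquare (cl a b P) → P ∈ H) : H.index ≤ (CL a b).ncard := by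
  have hc := imc a b hb hd
  choose β hβ1 hβ2 using hc
  have hfin : Finite (CL a b) := (CL_finite hb).to_subtype
  have hne : ∀ P, (β P : ℚ) ≠ 0 := fun P => Int.cast_ne_zero.2 (hβ1 P).1.ne_zero
  have key : ∀ P Q, β P = β Q → P - Q ∈ H := by
    intro P Q h
    apply hH
    obtain ⟨h1, -, h3⟩ := imb a b hb hd P (-Q)
    obtain ⟨-, h2, -⟩ := imb a b hb hd Q (-Q)
    rw [h2, ← sub_eq_add_neg] at h3
    obtain ⟨x, hx⟩ := hβ2 P
    obtain ⟨y, hy⟩ := hβ2 Q
    obtain ⟨z, hz⟩ := h3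
    rw [← h] at hy
    have hQ := (imb a b hb hd Q Q).1
    refine ⟨z * (β P : ℚ) / (x * y), ?_⟩
    have hx0 : x ≠ 0 := by
      rintro rfl
      rw [mul_zero] at hx
      exact mul_ne_zero (hne P) h1 hx
    have hy0 : y ≠ 0 := by
      rintro rfl
      rw [mul_zero] at hy
      exact mul_ne_zero (hne P) hQ hy
    have hP := hne P
    field_simp
    have e1 : (x * x) * (y * y) = ((β P : ℚ) * cl a b P) * ((β P : ℚ) * cl a b Q) := by
      rw [hx, hy]
    have e2 : z * z * ((β P : ℚ) * β P) = cl a b P * cl a b Q * cl a b (P - Q) * ((β P : ℚ) * β P) := by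
      rw [hz]
    linear_combination cl a b (P - Q) * e1 - e2
  rw [AddSubgroup.index]
  have hinj : Function.Injective (fun x : (CE a b).toAffine.Point ⧸ H => (⟨β x.out, hβ1 _⟩ : CL a b)) := by
    intro x y hxy
    have h1 := key _ _ (congrArg Subtype.val hxy)
    rw [← QuotientAddGroup.out_eq' x, ← QuotientAddGroup.out_eq' y]
    rw [QuotientAddGroup.eq]
    have := H.neg_mem h1
    rwa [neg_sub, sub_eq_neg_add] at this
  exact Nat.card_le_card_of_injective _ hinj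

/-- **the rank is at most the 2-isogeny Selmer rank** -/
theorem rank_le {a b : ℤ} (hb : b ≠ 0) (hd : a ^ 2 - 4 * b ≠ 0) :
    4 * 2 ^ Module.finrank ℤ (CE a b).toAffine.Point ≤
      (CL a b).ncard * (CL (-2 * a) (a ^ 2 - 4 * b)).ncard := by
  have hd' : (-2 * a) ^ 2 - 4 * (a ^ 2 - 4 * b) ≠ 0 := by
    have : (-2 * a) ^ 2 - 4 * (a ^ 2 - 4 * b) = 16 * b := by ring
    rw [this]
    exact mul_ne_zero (by norm_num) hb
  obtain ⟨φ, ψ, T, T', h1, h2, h3, h4, h5, h6, h7, h8⟩ := ima a b hb hd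
  have hA := CE_fin hb hd
  have hB := CE_fin hd hd'
  obtain ⟨-, -, h⟩ := grp (CE a b).toAffine.Point (CE (-2 * a) (a ^ 2 - 4 * b)).toAffine.Point
    φ ψ T T' h1 h2 h3 h4 h5 h6
  rw [h]
  exact Nat.mul_le_mul (index_le hb hd _ h7) (index_le hd hd' _ h8)

end Pool.Agent.H718.GE
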