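import Pool.Graph.R_pool_sql_team_seeded_b0a926ef.R413.TI.LawG
import Pool.Graph.R_pool_sql_team_seeded_b0a926ef.R413.TI.Trg
import Pool.Graph.R_pool_sql_team_seeded_b0a926ef.R413.TI.Dtg
import Pool.Agent.H718.GE.Rank
import Pool.Agent.H718.GE.Cor

/-!
# The law of the kernel for the products of a fixed prime and random primes
-/

set_option autoImplicit false

open scoped Classical

namespace Pool.Agent.H718.GE

open Finset Function Pool.Agent.R413.TI Pool.Agent.R338.EQ
open Pool.Agent.Y219.CQ (F sp)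

theorem Spl.prime {B : ℤ} {p : ℕ} (h : Spl B p) : p.Prime := h.1

theorem gb_symm {B : ℤ} {p q : ℕ} (hp : Spl B p) (hq : Spl B q) : gb p q = gb q p := by
  have : Fact p.Prime := ⟨hp.1⟩
  have : Fact q.Prime := ⟨hq.1⟩
  have h := ZMod.exists_sq_eq_prime_iff_of_mod_four_eq_one (p := p) (q := q)
    (by have := hp.2.1; omega) hq.ne_two
  unfold gb qb
  by_cases hs : IsSquare ((q : ℕ) : ZMod p)
  · rw [if_pos hs, if_pos (h.1 hs)]
  · rw [if_neg hs, if_neg fun h' => hs (h.2 h')]

theorem gb_eq_one {p q : ℕ} : gb p q = 1 ↔ ¬ IsSquare ((q : ℕ) : ZMod p) := by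
  unfold gb qb
  split_ifs with h
  · simp [h]
  · simp [h]

theorem symG_adj {B : ℤ} {n : ℕ} {p : Fin n → ℕ} (hp : ∀ i, Spl B (p i)) {i k : Fin n}
    (hik : i ≠ k) : gb (p i) (p k) = if (symG p).Adj i k then 1 else 0 := by
  have h1 : (symG p).Adj i k ↔ gb (p i) (p k) = 1 := by
    unfold symG
    rw [SimpleGraph.fromRel_adj, ← gb_eq_one, ← gb_eq_one, gb_symm (hp k) (hp i)]
    simp [hik]
  by_cases h : (symG p).Adj i k
  · rw [if_pos h]
    exact h1.1 h
  · rw [if_neg h]
    by_contra hne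
    exact h (h1.2 (z2_one _ hne))

open Cor in
/-- the number of the kernel sets is the number of the solutions of the bordered system -/
theorem card_kerS_nB {a b : ℤ} {n : ℕ} {p : Fin n → ℕ} {q : ℕ}
    (hp : ∀ i, Spl (b * (a ^ 2 - 4 * b)) (p i)) (hq : Spl (b * (a ^ 2 - 4 * b)) q)
    (hinj : Injective p) (hpq : ∀ i, p i ≠ q) (hf : fb a b q = 1) (hw : ∑ i, gb q (p i) = 1) :
    (kerS a b (insert q (univ.image p))).card =
      nB (fun i => gb q (p i)) (symG p) (fun i => fb a b (p i)) := by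
  have key : ∀ {V : Finset ℕ}, V ⊆ insert q (univ.image p) → ∀ {x₀ : ZMod 2} {x : Fin n → ZMod 2},
      (x₀ = if q ∈ V then 1 else 0) → (∀ i, x i = if p i ∈ V then 1 else 0) →
      (Ker a b (insert q (univ.image p)) V ↔ (∑ i, gb q (p i) * x i = 0 ∧
        ∀ i, gb q (p i) * x₀ + (fb a b (p i) + gb q (p i)) * x i +
          TrgP.lap (symG p) x i = 0)) := by
    intro V hV x₀ x h0 hx
    exact DtgAux.main (f := fb a b) (g := gb) (G := symG p) hinj hpq
      (fun i => gb_symm (hp i) hq) (fun i k hik => symG_adj hp hik) hf hw hV h0 hx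
  unfold nB
  rw [← Fintype.card_coe, ← Nat.card_eq_fintype_card]
  let F : {V // V ∈ kerS a b (insert q (univ.image p))} →
      {x : ZMod 2 × (Fin n → ZMod 2) // ∑ i, gb q (p i) * x.2 i = 0 ∧
        ∀ i, gb q (p i) * x.1 + (fb a b (p i) + gb q (p i)) * x.2 i +
          TrgP.lap (symG p) x.2 i = 0} :=
    fun V => ⟨(if q ∈ V.1 then 1 else 0, fun i => if p i ∈ V.1 then 1 else 0),
      (key (mem_kerS.1 V.2).1 rfl (fun _ => rfl)).1 (mem_kerS.1 V.2).2⟩
  refine Nat.card_congr (Equiv.ofBijective F ⟨?_, ?_⟩)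
  · intro V W hVW
    have h1 : ((if q ∈ V.1 then (1 : ZMod 2) else 0), fun i => if p i ∈ V.1 then (1 : ZMod 2) else 0) =
        ((if q ∈ W.1 then (1 : ZMod 2) else 0), fun i => if p i ∈ W.1 then (1 : ZMod 2) else 0) :=
      congrArg Subtype.val hVW
    have hq1 : q ∈ V.1 ↔ q ∈ W.1 := by
      have h2 := congrArg Prod.fst h1
      simp only at h2
      by_cases hv : q ∈ V.1
      · rw [if_pos hv] at h2
        by_cases hw' : q ∈ W.1
        · exact iff_of_true hv hw'
        · rw [if_neg hw'] at h2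
          exact absurd h2 one_ne_zero
      · rw [if_neg hv] at h2
        by_cases hw' : q ∈ W.1
        · rw [if_pos hw'] at h2
          exact absurd h2.symm one_ne_zero
        · exact iff_of_false hv hw'
    have hp1 : ∀ i, p i ∈ V.1 ↔ p i ∈ W.1 := by
      intro i
      have h2 := congrFun (congrArg Prod.snd h1) i
      simp only at h2
      by_cases hv : p i ∈ V.1
      · rw [if_pos hv] at h2
        by_cases hw' : p i ∈ W.1
        · exact iff_of_true hv hw'
        · rw [if_neg hw'] at h2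
          exact absurd h2 one_ne_zero
      · rw [if_neg hv] at h2
        by_cases hw' : p i ∈ W.1
        · rw [if_pos hw'] at h2
          exact absurd h2.symm one_ne_zero
        · exact iff_of_false hv hw'
    have hall : ∀ s ∈ insert q (univ.image p), (s ∈ V.1 ↔ s ∈ W.1) := by
      intro s hs
      rcases mem_insert.1 hs with rfl | hs
      · exact hq1
      · obtain ⟨i, -, rfl⟩ := mem_image.1 hs
        exact hp1 i
    apply Subtype.ext
    ext s
    constructor
    · intro hs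
      exact (hall s ((mem_kerS.1 V.2).1 hs)).1 hs
    · intro hs
      exact (hall s ((mem_kerS.1 W.2).1 hs)).2 hs
  · rintro ⟨⟨x₀, x⟩, hx⟩
    set V : Finset ℕ := (insert q (univ.image p)).filter
      (fun s => (s = q ∧ x₀ = 1) ∨ ∃ i, s = p i ∧ x i = 1) with hV
    have hVs : V ⊆ insert q (univ.image p) := filter_subset _ _
    have hqV : q ∈ V ↔ x₀ = 1 := by
      rw [hV, mem_filter]
      constructor
      · rintro ⟨-, h | ⟨i, h, -⟩⟩
        · exact h.2
        · exact absurd h.symm (hpq i)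
      · intro h
        exact ⟨mem_insert_self _ _, Or.inl ⟨rfl, h⟩⟩
    have hpV : ∀ i, p i ∈ V ↔ x i = 1 := by
      intro i
      rw [hV, mem_filter]
      constructor
      · rintro ⟨-, h | ⟨k, h, hk⟩⟩
        · exact absurd h.1 (hpq i)
        · rw [hinj h]
          exact hk
      · intro h
        exact ⟨mem_insert_of_mem (mem_image_of_mem _ (mem_univ i)), Or.inr ⟨i, rfl, h⟩⟩
    have h0 : x₀ = if q ∈ V then 1 else 0 := by
      by_cases hc : x₀ = 1
      · rw [if_pos (hqV.2 hc), hc]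
      · rw [if_neg fun h => hc (hqV.1 h)]
        by_contra h
        exact hc (z2_one _ h)
    have hx' : ∀ i, x i = if p i ∈ V then 1 else 0 := by
      intro i
      by_cases hc : x i = 1
      · rw [if_pos ((hpV i).2 hc), hc]
      · rw [if_neg fun h => hc ((hpV i).1 h)]
        by_contra h
        exact hc (z2_one _ h)
    have h3 := (key hVs h0 hx').2 hx
    refine ⟨⟨V, mem_kerS.2 ⟨hVs, h3⟩⟩, ?_⟩
    apply Subtype.ext
    show ((if q ∈ V then (1 : ZMod 2) else 0), fun i => if p i ∈ V then (1 : ZMod 2) else 0) = (x₀, x)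
    rw [← h0]
    congr 1
    funext i
    rw [← hx' i]

open Cor in
/-- the proportion of the graphs -/
theorem nB_prob {n : ℕ} (w v : Fin n → ZMod 2) (hw : ∑ i, w i = 1) (k : ℕ) :
    (Nat.card {G : SimpleGraph (Fin n) // nB w G v = 2 ^ k} : ℝ) / Nat.card (SimpleGraph (Fin n)) =
      law (n - 1) k := by
  rw [prob_nB hw v (2 ^ k), fr_nR Pool.Agent.Y839.CQ.t_SYM k (Vw w)]
  congr 1
  have := finrank_Vw hw
  omega

/-- the classes modulo `M` -/
def Cls (B : ℤ) (M c : ℕ) : Prop :=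
  Nat.Coprime c M ∧ c % 8 = 1 ∧ ∀ l : ℕ, l.Prime → l ≠ 2 → (l : ℤ) ∣ B → c % l = 1

theorem Cls.spl {B : ℤ} {M c X p : ℕ} (hM8 : 8 ∣ M) (hMB : B ∣ (M : ℤ)) (hc : Cls B M c)
    (hp : p ∈ clsM M c X) : Spl B p := by
  obtain ⟨-, hpp, hmod⟩ := mem_clsM.1 hp
  have key : ∀ d, d ∣ M → p % d = c % d := by
    intro d hd
    have h1 : p % M % d = c % M % d := by rw [hmod]
    rwa [Nat.mod_mod_of_dvd _ hd, Nat.mod_mod_of_dvd _ hd] at h1
  refine ⟨hpp, by rw [key 8 hM8, hc.2.1], fun l hl h2 hd => ?_⟩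
  have hlM : l ∣ M := by exact_mod_cast hd.trans hMB
  rw [key l hlM, hc.2.2 l hl h2 hd]

theorem gb_mod {M c X p q : ℕ} (hqM : q ∣ M) (hp : p ∈ clsM M c X) : gb q p = gb q c := by
  obtain ⟨-, -, hmod⟩ := mem_clsM.1 hp
  have h1 : p % M % q = c % M % q := by rw [hmod]
  rw [Nat.mod_mod_of_dvd _ hqM, Nat.mod_mod_of_dvd _ hqM] at h1
  have h2 : ((p : ℕ) : ZMod q) = ((c : ℕ) : ZMod q) := (ZMod.natCast_eq_natCast_iff' _ _ _).2 h1
  unfold gb
  rw [h2]

/-- **the law of the kernel** -/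
theorem ker_law {a b : ℤ} {q : ℕ} (hq : Spl (b * (a ^ 2 - 4 * b)) q) (hf : fb a b q = 1)
    {n : ℕ} (hn : 0 < n) {M : ℕ} (hM : 0 < M) (hM8 : 8 ∣ M) (hMB : b * (a ^ 2 - 4 * b) ∣ (M : ℤ))
    (hMq : q ∣ M) (c : Fin n → ℕ) (hc : ∀ i, Cls (b * (a ^ 2 - 4 * b)) M (c i))
    (hw : ∑ i, gb q (c i) = 1) (k : ℕ) :
    ∃ A : ℝ, 0 ≤ A ∧ ∀ (X : Fin n → ℕ) (z : ℕ), 2 ≤ z → (∀ i, z ≤ X i) →
      (∀ i, Real.log (X i) ≤ (z : ℝ) ^ (1 / (24 * n : ℝ))) →
      |(((Fintype.piFinset fun i => clsM M (c i) (X i)).filter fun p =>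
          Injective p ∧ (kerS a b (insert q (univ.image p))).card = 2 ^ k).card : ℝ) -
          Cor.law (n - 1) k * (((Fintype.piFinset fun i => clsM M (c i) (X i)).filter fun p =>
            Injective p).card : ℝ)| ≤
        A * (z : ℝ) ^ (-(1 / 24 : ℝ)) *
          (((Fintype.piFinset fun i => clsM M (c i) (X i)).filter fun p => Injective p).card : ℝ) := by
  obtain ⟨A, hA, h⟩ := graph_law_f hn hM (Dvd.dvd.trans (by norm_num) hM8) c (fun i => (hc i).1)
    (fun i => by have := (hc i).2.1; omega) (fun G v => Cor.nB (fun i => gb q (c i)) G v = 2 ^ k)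
  refine ⟨A, hA, fun X z hz hzX hlog => ?_⟩
  have key := h (fb a b) X z hz hzX hlog
  have e1 : (Fintype.piFinset fun i => clsM M (c i) (X i)).filter (fun p =>
      Injective p ∧ Cor.nB (fun i => gb q (c i)) (symG p) (fun i => fb a b (p i)) = 2 ^ k) =
      (Fintype.piFinset fun i => clsM M (c i) (X i)).filter (fun p =>
        Injective p ∧ (kerS a b (insert q (univ.image p))).card = 2 ^ k) := by
    refine filter_congr fun p hp => and_congr_right fun hinj => ?_
    rw [Fintype.mem_piFinset] at hp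
    have hs : ∀ i, Spl (b * (a ^ 2 - 4 * b)) (p i) := fun i => (hc i).spl hM8 hMB (hp i)
    have hg : (fun i => gb q (c i)) = fun i => gb q (p i) := by
      funext i
      rw [gb_mod hMq (hp i)]
    have hpq : ∀ i, p i ≠ q := by
      intro i hi
      have h1 := (mem_clsM.1 (hp i)).2.2
      have h2 : p i % q = c i % q := by
        have h3 : p i % M % q = c i % M % q := by rw [h1]
        rwa [Nat.mod_mod_of_dvd _ hMq, Nat.mod_mod_of_dvd _ hMq] at h3
      rw [hi, Nat.mod_self] at h2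
      have h4 : q ∣ Nat.gcd (c i) M := Nat.dvd_gcd (Nat.dvd_of_mod_eq_zero h2.symm) hMq
      rw [(hc i).1] at h4
      exact hq.1.one_lt.ne' (Nat.dvd_one.1 h4)
    rw [hg, card_kerS_nB hs hq hinj hpq hf ?_]
    rw [← hw, hg]
  have e2 : ∑ p ∈ (Fintype.piFinset fun i => clsM M (c i) (X i)).filter fun p => Injective p,
      (Nat.card {G : SimpleGraph (Fin n) //
        Cor.nB (fun i => gb q (c i)) G (fun i => fb a b (p i)) = 2 ^ k} : ℝ) /
        Nat.card (SimpleGraph (Fin n)) =
      Cor.law (n - 1) k * (((Fintype.piFinset fun i => clsM M (c i) (X i)).filter fun p =>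
            Injective p).card : ℝ) := by
    rw [sum_congr rfl fun p _ => nB_prob _ (fun i => fb a b (p i)) hw k, sum_const, nsmul_eq_mul,
      mul_comm]
  rw [← e1, ← e2]
  convert key using 3
  congr!

end Pool.Agent.H718.GE
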