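import Pool.Graph.R_pool_sql_team_seeded_b0a926ef.R413.TI.Sym
import Pool.Graph.R_pool_sql_team_seeded_b0a926ef.R413.TI.Good
import Pool.Graph.R_pool_sql_team_seeded_b0a926ef.R413.TI.SplG
import Pool.Graph.R_pool_sql_team_seeded_b0a926ef.R413.TI.Sq

/-!
# The classes of the 2-isogeny descent of a twist by a product of split primes

Assembly of the local pieces of project GE (helper413, `Pool/Graph/.../R413/TI`).
-/

set_option autoImplicit false

open scoped Classical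

namespace Pool.Agent.H718.GE

open Finset Pool.Agent.R413.TI

/-- the primes `p ≡ 1` modulo `8` and modulo the odd prime divisors of `B` -/
def Spl (B : ℤ) (p : ℕ) : Prop :=
  p.Prime ∧ p % 8 = 1 ∧ ∀ l : ℕ, l.Prime → l ≠ 2 → (l : ℤ) ∣ B → p % l = 1

theorem Spl.ne_two {B : ℤ} {p : ℕ} (h : Spl B p) : p ≠ 2 := by
  rintro rfl
  have := h.2.1
  omega

theorem Spl.ndvd {B : ℤ} {p : ℕ} (h : Spl B p) : ¬ (p : ℤ) ∣ B := by
  intro hd
  have := h.2.2 p h.1 h.ne_two hd
  rw [Nat.mod_self] at this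
  omega

theorem Spl.isSq_nat {B : ℤ} {p : ℕ} (h : Spl B p) (n : ℕ) :
    (n : ℤ) ∣ B → IsSquare (n : ZMod p) := by
  have : Fact p.Prime := ⟨h.1⟩
  refine induction_on_primes (motive := fun n => (n : ℤ) ∣ B → IsSquare (n : ZMod p)) ?_ ?_ ?_ n
  · intro _
    exact ⟨0, by simp⟩
  · intro _
    exact ⟨1, by simp⟩
  · intro l a hl ih hd
    have h1 : (l : ℤ) ∣ B := dvd_trans ⟨(a : ℤ), by push_cast; ring⟩ hd
    have h2 : (a : ℤ) ∣ B := dvd_trans ⟨(l : ℤ), by push_cast; ring⟩ hd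
    rw [Nat.cast_mul]
    refine IsSquare.mul ?_ (ih h2)
    by_cases h2' : l = 2
    · subst h2'
      have := (ZMod.exists_sq_eq_two_iff h.ne_two).2 (Or.inl h.2.1)
      exact_mod_cast this
    · have : Fact l.Prime := ⟨hl⟩
      rw [ZMod.exists_sq_eq_prime_iff_of_mod_four_eq_one (p := p) (q := l)
        (by have := h.2.1; omega) h2']
      have h3 : (p : ZMod l) = 1 := by
        have h4 := h.2.2 l hl h2' h1
        rw [← Nat.cast_one, ZMod.natCast_eq_natCast_iff', h4, Nat.mod_eq_of_lt hl.one_lt]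
      rw [h3]
      exact ⟨1, by simp⟩

theorem Spl.neg_one {B : ℤ} {p : ℕ} (h : Spl B p) : IsSquare (-1 : ZMod p) := by
  have : Fact p.Prime := ⟨h.1⟩
  rw [ZMod.exists_sq_eq_neg_one_iff]
  have := h.2.1
  omega

theorem Spl.isSq {B : ℤ} {p : ℕ} (h : Spl B p) (u : ℤ) (hu : u ∣ B) :
    IsSquare (u : ZMod p) := by
  have h1 : ((u.natAbs : ℕ) : ℤ) ∣ B := Int.natAbs_dvd.2 hu
  have h2 := h.isSq_nat _ h1
  rcases Int.natAbs_eq u with h3 | h3
  · rw [h3]
    simpa using h2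
  · rw [h3]
    push_cast
    have : IsSquare ((-1 : ZMod p) * ((u.natAbs : ℕ) : ZMod p)) := h.neg_one.mul h2
    simpa using this

theorem prod_mod {V : Finset ℕ} {m : ℕ} (h : ∀ p ∈ V, p % m = 1 % m) :
    (∏ p ∈ V, p) % m = 1 % m := by
  have : (∏ p ∈ V, p) ≡ ∏ p ∈ V, 1 [MOD m] := by
    induction V using Finset.induction_on with
    | empty => rfl
    | insert p V hp ih =>
      rw [prod_insert hp, prod_insert hp]
      exact Nat.ModEq.mul (h p (mem_insert_self _ _)) (ih fun q hq => h q (mem_insert_of_mem hq))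
  simpa [Nat.ModEq] using this

theorem prod_pos {B : ℤ} {V : Finset ℕ} (h : ∀ p ∈ V, Spl B p) : 0 < ∏ p ∈ V, p :=
  Finset.prod_pos fun p hp => (h p hp).1.pos

/-- products of split primes are squares in the completions at the bad primes -/
theorem sq_bad {B : ℤ} {V : Finset ℕ} (h : ∀ p ∈ V, Spl B p) (l : ℕ) [Fact l.Prime]
    (hl : l = 2 ∨ (l : ℤ) ∣ B) : IsSquare (((∏ p ∈ V, p : ℕ) : ℤ) : ℚ_[l]) := by
  by_cases h2 : l = 2
  · subst h2
    apply padic_sq2
    have := prod_mod (V := V) (m := 8) (fun p hp => (h p hp).2.1)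
    omega
  · have hlB : (l : ℤ) ∣ B := hl.resolve_left h2
    have hlp : l.Prime := Fact.out
    have h1 : (∏ p ∈ V, p) % l = 1 := by
      rw [prod_mod (V := V) (m := l) (fun p hp => by
        rw [(h p hp).2.2 l hlp h2 hlB, Nat.mod_eq_of_lt hlp.one_lt]), Nat.mod_eq_of_lt hlp.one_lt]
    apply padic_sq h2
    · intro hd
      have hd' : l ∣ ∏ p ∈ V, p := by exact_mod_cast hd
      rw [Nat.mod_eq_zero_of_dvd hd'] at h1
      omega
    · have h3 : ((∏ p ∈ V, p : ℕ) : ZMod l) = 1 := by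
        rw [← Nat.cast_one, ZMod.natCast_eq_natCast_iff', h1, Nat.mod_eq_of_lt hlp.one_lt]
      rw [Int.cast_natCast, h3]
      exact ⟨1, by simp⟩

/-- scaling of the quartic by squares -/
theorem sol_scale {K : Type} [Field K] [CharZero K] {a u w D P B₂ : ℤ} (hu : u ≠ 0) (hP : P ≠ 0)
    (hD : D ≠ 0) (hB : (u * P) * B₂ = (u * w) * D ^ 2) (hPs : IsSquare (P : K))
    (hDs : IsSquare (D : K)) : Sol K (a * D) (u * P) B₂ ↔ Sol K a u w := by
  obtain ⟨t, ht⟩ := hPs
  obtain ⟨d, hd⟩ := hDs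
  have hP' : (P : K) ≠ 0 := Int.cast_ne_zero.2 hP
  have hD' : (D : K) ≠ 0 := Int.cast_ne_zero.2 hD
  have hu' : (u : K) ≠ 0 := Int.cast_ne_zero.2 hu
  have ht0 : t ≠ 0 := by
    rintro rfl
    exact hP' (by rw [ht]; ring)
  have hd0 : d ≠ 0 := by
    rintro rfl
    exact hD' (by rw [hd]; ring)
  have hB' : t ^ 2 * (B₂ : K) = (w : K) * d ^ 4 := by
    have h1 : ((u : K) * P) * B₂ = (u * w) * D ^ 2 := by exact_mod_cast congrArg (Int.cast : ℤ → K) hB
    rw [ht, hd] at h1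
    apply mul_left_cancel₀ hu'
    linear_combination h1
  constructor
  · rintro ⟨N, M, e, hne, h⟩
    refine ⟨t * N, t * M, d * e, ?_, ?_⟩
    · rcases hne with h1 | h1
      · exact Or.inl (mul_ne_zero ht0 h1)
      · exact Or.inr (mul_ne_zero hd0 h1)
    · push_cast at h
      rw [ht, hd] at h
      linear_combination t ^ 2 * h + e ^ 4 * hB'
  · rintro ⟨N, M, e, hne, h⟩
    refine ⟨t⁻¹ * N, t⁻¹ * M, d⁻¹ * e, ?_, ?_⟩
    · rcases hne with h1 | h1
      · exact Or.inl (mul_ne_zero (inv_ne_zero ht0) h1)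
      · exact Or.inr (mul_ne_zero (inv_ne_zero hd0) h1)
    · push_cast
      rw [ht, hd]
      have h2 : (B₂ : K) = (w : K) * d ^ 4 * (t⁻¹) ^ 2 := by
        rw [← hB']
        field_simp
      rw [h2, mul_pow, h]
      field_simp

theorem z2_one : ∀ z : ZMod 2, z ≠ 0 → z = 1 := by decide

/-- the quadratic residue bit -/
noncomputable def qb {l : ℕ} (x : ZMod l) : ZMod 2 := if IsSquare x then 0 else 1

theorem qb_zero_iff {l : ℕ} (x : ZMod l) : qb x = 0 ↔ IsSquare x := by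
  unfold qb
  split_ifs with h
  · simp [h]
  · simp [h]

theorem qb_mul {l : ℕ} [Fact l.Prime] {x y : ZMod l} (hx : x ≠ 0) (hy : y ≠ 0) :
    qb (x * y) = qb x + qb y := by
  by_cases h2 : l = 2
  · subst h2
    have h2c : ∀ z : ZMod 2, z ≠ 0 → z = 1 := z2_one
    have hx1 : x = 1 := h2c x hx
    have hy1 : y = 1 := h2c y hy
    subst hx1
    subst hy1
    have h1 : qb (1 : ZMod 2) = 0 := (qb_zero_iff _).2 ⟨1, by simp⟩
    rw [mul_one, h1, add_zero]
  · have hchar : ringChar (ZMod l) ≠ 2 := by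
      rw [ZMod.ringChar_zmod_n]
      exact h2
    have hxy := mul_ne_zero hx hy
    have key : ∀ z : ZMod l, z ≠ 0 → (quadraticChar (ZMod l) z = 1 ∧ qb z = 0) ∨
        (quadraticChar (ZMod l) z = -1 ∧ qb z = 1) := by
      intro z hz
      by_cases hs : IsSquare z
      · exact Or.inl ⟨(quadraticChar_one_iff_isSquare hz).2 hs, (qb_zero_iff z).2 hs⟩
      · refine Or.inr ⟨quadraticChar_neg_one_iff_not_isSquare.2 hs, ?_⟩
        unfold qb
        rw [if_neg hs]
    have hm : quadraticChar (ZMod l) (x * y) = quadraticChar (ZMod l) x * quadraticChar (ZMod l) y :=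
      map_mul _ _ _
    rcases key x hx with ⟨h1, h1'⟩ | ⟨h1, h1'⟩ <;> rcases key y hy with ⟨h3, h3'⟩ | ⟨h3, h3'⟩ <;>
      rcases key _ hxy with ⟨h5, h5'⟩ | ⟨h5, h5'⟩ <;>
      rw [h1, h3, h5] at hm <;> rw [h1', h3', h5'] <;>
      first
      | (exfalso; revert hm; decide)
      | decide

theorem prod_ne {l : ℕ} [Fact l.Prime] {V : Finset ℕ} (h : ∀ p ∈ V, p.Prime ∧ p ≠ l) :
    ((∏ p ∈ V, p : ℕ) : ZMod l) ≠ 0 := by
  intro h0
  rw [ZMod.natCast_eq_zero_iff] at h0
  have hl : l.Prime := Fact.out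
  obtain ⟨p, hp, hd⟩ := (Prime.dvd_finsetProd_iff hl.prime _).1 h0
  exact (h p hp).2 ((Nat.prime_dvd_prime_iff_eq hl (h p hp).1).1 hd).symm

theorem qb_prod {l : ℕ} [Fact l.Prime] {V : Finset ℕ} (h : ∀ p ∈ V, p.Prime ∧ p ≠ l) :
    qb ((∏ p ∈ V, p : ℕ) : ZMod l) = ∑ p ∈ V, qb ((p : ℕ) : ZMod l) := by
  induction V using Finset.induction_on with
  | empty =>
    rw [prod_empty, sum_empty, qb_zero_iff]
    exact ⟨1, by simp⟩
  | insert q V hq ih =>
    have h' : ∀ p ∈ V, p.Prime ∧ p ≠ l := fun p hp => h p (mem_insert_of_mem hp)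
    rw [prod_insert hq, sum_insert hq, Nat.cast_mul, qb_mul, ih h']
    · have := prod_ne (l := l) (V := {q}) (fun p hp => by
        rw [mem_singleton] at hp
        subst hp
        exact h _ (mem_insert_self _ _))
      simpa using this
    · exact prod_ne h'

end Pool.Agent.H718.GE
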