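import Pool.Agent.H718.GE.Loc

/-!
# The classes of the 2-isogeny descent of a twist: membership
-/

set_option autoImplicit false

open scoped Classical

namespace Pool.Agent.H718.GE

open Finset Pool.Agent.R413.TI

/-- the bit of the curve: `x ^ 4 + a x ^ 2 + b` has no root modulo `s` -/
noncomputable def fb (a b : ℤ) (s : ℕ) : ZMod 2 :=
  if ∃ x : ZMod s, x ^ 4 + (a : ZMod s) * x ^ 2 + (b : ZMod s) = 0 then 0 else 1

/-- the bit of a pair of primes -/
noncomputable def gb (s j : ℕ) : ZMod 2 := qb ((j : ℕ) : ZMod s)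

/-- the linear condition on the sets of primes -/
def Ker (a b : ℤ) (S V : Finset ℕ) : Prop :=
  ∀ s ∈ S, ∑ j ∈ V, (if s = j then fb a b s + ∑ l ∈ S.erase s, gb s l else gb s j) = 0

/-- a root of the quadratic -/
theorem exists_root {a b : ℤ} {p : ℕ} (h : Spl (b * (a ^ 2 - 4 * b)) p) :
    ∃ e : ZMod p, e ^ 2 + (a : ZMod p) * e + (b : ZMod p) = 0 := by
  have : Fact p.Prime := ⟨h.1⟩
  obtain ⟨r, hr⟩ := h.isSq (a ^ 2 - 4 * b) (Dvd.intro_left b rfl)
  have h2 : (2 : ZMod p) ≠ 0 := by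
    intro h0
    have h1 : ((2 : ℕ) : ZMod p) = 0 := by exact_mod_cast h0
    rw [ZMod.natCast_eq_zero_iff] at h1
    exact h.ne_two ((Nat.prime_dvd_prime_iff_eq h.1 Nat.prime_two).1 h1)
  refine ⟨(-(a : ZMod p) + r) / 2, ?_⟩
  push_cast at hr
  field_simp
  linear_combination -hr

theorem b_ne {a b : ℤ} {p : ℕ} (h : Spl (b * (a ^ 2 - 4 * b)) p) : (b : ZMod p) ≠ 0 := by
  intro h0
  rw [ZMod.intCast_zmod_eq_zero_iff_dvd] at h0
  exact h.ndvd (Dvd.dvd.mul_right h0 _)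

theorem d_ne {a b : ℤ} {p : ℕ} (h : Spl (b * (a ^ 2 - 4 * b)) p) :
    ((a ^ 2 - 4 * b : ℤ) : ZMod p) ≠ 0 := by
  intro h0
  rw [ZMod.intCast_zmod_eq_zero_iff_dvd] at h0
  exact h.ndvd (Dvd.dvd.mul_left h0 _)

/-- the bit of the curve is the bit of a root -/
theorem fb_eq {a b : ℤ} {p : ℕ} (h : Spl (b * (a ^ 2 - 4 * b)) p) {e : ZMod p}
    (he : e ^ 2 + (a : ZMod p) * e + (b : ZMod p) = 0) : fb a b p = qb e := by
  have hF : Fact p.Prime := ⟨h.1⟩
  have hb := b_ne h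
  have he0 : e ≠ 0 := by
    rintro rfl
    apply hb
    linear_combination he
  have key : (∃ x : ZMod p, x ^ 4 + (a : ZMod p) * x ^ 2 + (b : ZMod p) = 0) ↔ IsSquare e := by
    constructor
    · rintro ⟨x, hx⟩
      -- `x ^ 2` is one of the two roots, whose product is a square
      have h1 : (x ^ 2 - e) * (x ^ 2 + e + (a : ZMod p)) = 0 := by
        linear_combination hx - he
      rcases mul_eq_zero.1 h1 with h2 | h2
      · exact ⟨x, by linear_combination -h2⟩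
      · obtain ⟨β, hβ⟩ := h.isSq b (Dvd.intro _ rfl)
        have h3 : e * x ^ 2 = β * β := by
          rw [← hβ]
          linear_combination e * h2 - he
        have hx0 : x ≠ 0 := by
          rintro rfl
          apply hb
          linear_combination hx
        refine ⟨β / x, ?_⟩
        field_simp
        linear_combination h3
    · rintro ⟨x, hx⟩
      refine ⟨x, ?_⟩
      rw [hx] at he
      linear_combination he
  unfold fb qb
  by_cases hs : IsSquare e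
  · rw [if_pos (key.2 hs), if_pos hs]
  · rw [if_neg (fun h' => hs (key.1 h')), if_neg hs]

/-- the conditions at the split primes -/
theorem sol_split {a b u w B₂ : ℤ} (hbw : b = u * w)
    {S V : Finset ℕ} (hS : ∀ p ∈ S, Spl (b * (a ^ 2 - 4 * b)) p) (hV : V ⊆ S) {s : ℕ} (hs : s ∈ S)
    (husq : Squarefree (u * ((∏ p ∈ V, p : ℕ) : ℤ)))
    (hB : (u * ((∏ p ∈ V, p : ℕ) : ℤ)) * B₂ = b * ((∏ p ∈ S, p : ℕ) : ℤ) ^ 2) [Fact s.Prime] :
    Sol ℚ_[s] (a * ((∏ p ∈ S, p : ℕ) : ℤ)) (u * ((∏ p ∈ V, p : ℕ) : ℤ)) B₂ ↔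
      ∑ j ∈ V, (if s = j then fb a b s + ∑ l ∈ S.erase s, gb s l else gb s j) = 0 := by
  have hsp := hS s hs
  obtain ⟨e, he⟩ := exists_root hsp
  have hbz := b_ne hsp
  have hdz := d_ne hsp
  have he0 : e ≠ 0 := by
    rintro rfl
    apply hbz
    linear_combination he
  have hb1 : ¬ (s : ℤ) ∣ b := fun hd => hsp.ndvd (Dvd.dvd.mul_right hd _)
  have hd1 : ¬ (s : ℤ) ∣ a ^ 2 - 4 * b := fun hd => hsp.ndvd (Dvd.dvd.mul_left hd _)
  have huB : u ∣ b * (a ^ 2 - 4 * b) := by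
    rw [hbw]
    exact Dvd.dvd.mul_right (Dvd.intro _ rfl) _
  have husqr : IsSquare (u : ZMod s) := hsp.isSq u huB
  have hu0 : (u : ZMod s) ≠ 0 := by
    intro h0
    apply hbz
    rw [hbw]
    push_cast
    rw [h0, zero_mul]
  have hSprime : ∀ q ∈ S.erase s, q.Prime ∧ q ≠ s := fun q hq =>
    ⟨(hS q (mem_of_mem_erase hq)).1, ne_of_mem_erase hq⟩
  have hprod : ∏ p ∈ S, p = s * ∏ p ∈ S.erase s, p := (mul_prod_erase S (fun p => p) hs).symm
  have hD : ((∏ p ∈ S, p : ℕ) : ℤ) = (s : ℤ) * ((∏ p ∈ S.erase s, p : ℕ) : ℤ) := by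
    rw [hprod]
    push_cast
    ring
  have hD'0 : ((∏ p ∈ S.erase s, p : ℕ) : ZMod s) ≠ 0 := prod_ne hSprime
  have hD' : ¬ (s : ℤ) ∣ ((∏ p ∈ S.erase s, p : ℕ) : ℤ) := by
    intro hd
    apply hD'0
    rw [ZMod.natCast_eq_zero_iff]
    exact_mod_cast hd
  obtain ⟨h1, h2⟩ := splg s a b ((∏ p ∈ S, p : ℕ) : ℤ) ((∏ p ∈ S.erase s, p : ℕ) : ℤ)
    (u * ((∏ p ∈ V, p : ℕ) : ℤ)) B₂ e hsp.ne_two hb1 hd1 (hsp.isSq b (Dvd.intro _ rfl)) he hD hD'
    husq hB
  by_cases hsV : s ∈ V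
  · -- the prime divides the class
    have hVprime : ∀ q ∈ V.erase s, q.Prime ∧ q ≠ s := fun q hq =>
      ⟨(hS q (hV (mem_of_mem_erase hq))).1, ne_of_mem_erase hq⟩
    have hprodV : ∏ p ∈ V, p = s * ∏ p ∈ V.erase s, p := (mul_prod_erase V (fun p => p) hsV).symm
    have hc : u * ((∏ p ∈ V, p : ℕ) : ℤ) = (s : ℤ) * (u * ((∏ p ∈ V.erase s, p : ℕ) : ℤ)) := by
      rw [hprodV]
      push_cast
      ring
    rw [h2 _ hc]
    have hP0 : ((∏ p ∈ V.erase s, p : ℕ) : ZMod s) ≠ 0 := prod_ne hVprime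
    have hsum : ∑ j ∈ V, (if s = j then fb a b s + ∑ l ∈ S.erase s, gb s l else gb s j) =
        (fb a b s + ∑ l ∈ S.erase s, gb s l) + ∑ j ∈ V.erase s, gb s j := by
      rw [← add_sum_erase V _ hsV, if_pos rfl]
      congr 1
      exact sum_congr rfl fun j hj => if_neg (ne_of_mem_erase hj).symm
    rw [hsum, ← qb_zero_iff]
    push_cast
    have e1 : ((u : ZMod s) * ∏ p ∈ V.erase s, (p : ZMod s)) * (∏ p ∈ S.erase s, (p : ZMod s)) * e =
        (u : ZMod s) * ((((∏ p ∈ V.erase s, p : ℕ) : ZMod s)) *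
          (((∏ p ∈ S.erase s, p : ℕ) : ZMod s) * e)) := by
      push_cast
      ring
    rw [e1, qb_mul hu0 (mul_ne_zero hP0 (mul_ne_zero hD'0 he0)),
      qb_mul hP0 (mul_ne_zero hD'0 he0), qb_mul hD'0 he0, qb_prod hVprime, qb_prod hSprime,
      (qb_zero_iff _).2 husqr, fb_eq hsp he]
    have e2 : ∀ x y z : ZMod 2, 0 + (y + (z + x)) = x + z + y := by
      intro x y z
      ring
    rw [e2]
    exact Iff.rfl
  · have hVprime : ∀ q ∈ V, q.Prime ∧ q ≠ s := fun q hq =>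
      ⟨(hS q (hV hq)).1, fun h => hsV (h ▸ hq)⟩
    have hP0 : ((∏ p ∈ V, p : ℕ) : ZMod s) ≠ 0 := prod_ne hVprime
    have hnd : ¬ (s : ℤ) ∣ u * ((∏ p ∈ V, p : ℕ) : ℤ) := by
      intro hd
      rw [← ZMod.intCast_zmod_eq_zero_iff_dvd] at hd
      push_cast at hd
      rcases mul_eq_zero.1 hd with h | h
      · exact hu0 h
      · exact hP0 (by push_cast; exact h)
    rw [h1 hnd]
    have hsum : ∑ j ∈ V, (if s = j then fb a b s + ∑ l ∈ S.erase s, gb s l else gb s j) =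
        ∑ j ∈ V, gb s j :=
      sum_congr rfl fun j hj => if_neg (fun h : s = j => hsV (by rw [h]; exact hj))
    rw [hsum, ← qb_zero_iff]
    have e1 : ((u * ((∏ p ∈ V, p : ℕ) : ℤ) : ℤ) : ZMod s) =
        (u : ZMod s) * ((∏ p ∈ V, p : ℕ) : ZMod s) := by
      push_cast
      ring
    rw [e1, qb_mul hu0 hP0, (qb_zero_iff _).2 husqr, zero_add, qb_prod hVprime]
    rfl

/-- the conditions at the good primes -/
theorem sol_good {a b u w : ℤ} (hbw : b = u * w) {l : ℕ} [Fact l.Prime] (h2 : l ≠ 2)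
    (hl : ¬ (l : ℤ) ∣ b * (a ^ 2 - 4 * b)) : Sol ℚ_[l] a u w := by
  have hb1 : ¬ (l : ℤ) ∣ b := fun hd => hl (Dvd.dvd.mul_right hd _)
  have hd1 : ¬ (l : ℤ) ∣ a ^ 2 - 4 * b := fun hd => hl (Dvd.dvd.mul_left hd _)
  refine good l a u w h2 (fun h => hb1 ?_) (fun h => hb1 ?_) ?_
  · rw [hbw]
    exact Dvd.dvd.mul_right h _
  · rw [hbw]
    exact Dvd.dvd.mul_left h _
  · rw [hbw] at hd1
    rwa [← mul_assoc] at hd1

/-- the classes of the twist -/
theorem mem_twist {a b : ℤ} (hb : b ≠ 0) {S V : Finset ℕ}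
    (hS : ∀ p ∈ S, Spl (b * (a ^ 2 - 4 * b)) p) (hV : V ⊆ S) {u : ℤ} (hu : u ∣ b)
    (husq : Squarefree u) :
    u * ((∏ p ∈ V, p : ℕ) : ℤ) ∈ CL (a * ((∏ p ∈ S, p : ℕ) : ℤ)) (b * ((∏ p ∈ S, p : ℕ) : ℤ) ^ 2) ↔
      u ∈ CL a b ∧ Ker a b S V := by
  obtain ⟨w, hbw⟩ := hu
  have hu0 : u ≠ 0 := by
    rintro rfl
    exact hb (by rw [hbw, zero_mul])
  have hw : b / u = w := by
    rw [hbw]
    exact Int.mul_ediv_cancel_left w hu0
  set P : ℤ := ((∏ p ∈ V, p : ℕ) : ℤ) with hPdef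
  set D : ℤ := ((∏ p ∈ S, p : ℕ) : ℤ) with hDdef
  have hVs : ∀ p ∈ V, Spl (b * (a ^ 2 - 4 * b)) p := fun p hp => hS p (hV hp)
  have hPpos : 0 < P := by
    rw [hPdef]
    exact_mod_cast prod_pos hVs
  have hDpos : 0 < D := by
    rw [hDdef]
    exact_mod_cast prod_pos hS
  have hPD : P ∣ D := by
    rw [hPdef, hDdef]
    exact_mod_cast prod_dvd_prod_of_subset V S (fun p => p) hV
  -- squarefree
  have hPsq : Squarefree P := by
    rw [hPdef, Int.squarefree_natCast]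
    have : ∀ W : Finset ℕ, (∀ p ∈ W, p.Prime) → Squarefree (∏ p ∈ W, p) := by
      intro W
      induction W using Finset.induction_on with
      | empty => intro _; simp
      | insert q W hq ih =>
        intro hW
        rw [prod_insert hq, Nat.squarefree_mul_iff]
        refine ⟨?_, (hW q (mem_insert_self _ _)).squarefree,
          ih fun p hp => hW p (mem_insert_of_mem hp)⟩
        refine Nat.Coprime.prod_right fun p hp => ?_
        rw [Nat.coprime_primes (hW q (mem_insert_self _ _)) (hW p (mem_insert_of_mem hp))]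
        rintro rfl
        exact hq hp
    exact this V fun p hp => (hVs p hp).1
  have hcop : IsCoprime u P := by
    rw [Int.isCoprime_iff_gcd_eq_one]
    by_contra hg
    obtain ⟨q, hq, hqd⟩ := Nat.exists_prime_and_dvd hg
    have h1 : (q : ℤ) ∣ u := (Int.natCast_dvd_natCast.2 hqd).trans (Int.gcd_dvd_left ..)
    have h2 : (q : ℤ) ∣ P := (Int.natCast_dvd_natCast.2 hqd).trans (Int.gcd_dvd_right ..)
    rw [hPdef, Int.natCast_dvd_natCast] at h2
    obtain ⟨p, hp, hd⟩ := (Prime.dvd_finsetProd_iff hq.prime _).1 h2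
    have h3 : q = p := (Nat.prime_dvd_prime_iff_eq hq (hVs p hp).1).1 hd
    subst h3
    exact (hVs q hp).ndvd (Dvd.dvd.mul_right (h1.trans (Dvd.intro w hbw.symm)) _)
  have hsq : Squarefree (u * P) := by
    rw [squarefree_mul_iff]
    exact ⟨hcop.isRelPrime, husq, hPsq⟩
  have hdvd : u * P ∣ b * D ^ 2 := by
    rw [hbw]
    exact mul_dvd_mul (Dvd.intro w rfl) (hPD.trans (Dvd.intro _ (by ring : D * D = D ^ 2)))
  obtain ⟨B₂, hB₂⟩ := hdvd
  have huP : u * P ≠ 0 := mul_ne_zero hu0 hPpos.ne'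
  have hq : b * D ^ 2 / (u * P) = B₂ := by
    rw [hB₂]
    exact Int.mul_ediv_cancel_left _ huP
  have hB : (u * P) * B₂ = b * D ^ 2 := hB₂.symm
  have hB' : (u * P) * B₂ = (u * w) * D ^ 2 := by rw [← hbw]; exact hB
  -- the real place
  have hreal : Sol ℝ (a * D) (u * P) B₂ ↔ Sol ℝ a u w := by
    refine sol_scale hu0 hPpos.ne' hDpos.ne' hB' ?_ ?_
    · exact ⟨Real.sqrt P, (Real.mul_self_sqrt (by exact_mod_cast hPpos.le)).symm⟩
    · exact ⟨Real.sqrt D, (Real.mul_self_sqrt (by exact_mod_cast hDpos.le)).symm⟩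
  -- the bad places
  have hbad : ∀ (l : ℕ) [Fact l.Prime], (l = 2 ∨ (l : ℤ) ∣ b * (a ^ 2 - 4 * b)) →
      (Sol ℚ_[l] (a * D) (u * P) B₂ ↔ Sol ℚ_[l] a u w) := by
    intro l _ hl
    exact sol_scale hu0 hPpos.ne' hDpos.ne' hB' (sq_bad hVs l hl) (sq_bad hS l hl)
  unfold CL
  simp only [Set.mem_ofPred_eq, hq, hw]
  constructor
  · rintro ⟨-, -, h1, h2⟩
    refine ⟨⟨husq, Dvd.intro w hbw.symm, hreal.1 h1, ?_⟩, ?_⟩
    · intro l _
      by_cases hl : l = 2 ∨ (l : ℤ) ∣ b * (a ^ 2 - 4 * b)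
      · exact (hbad l hl).1 (h2 l)
      · push Not at hl
        exact sol_good hbw hl.1 hl.2
    · intro s hs
      have : Fact s.Prime := ⟨(hS s hs).1⟩
      exact (sol_split hbw hS hV hs hsq hB).1 (h2 s)
  · rintro ⟨⟨-, -, h1, h2⟩, h3⟩
    refine ⟨hsq, ⟨B₂, hB₂⟩, hreal.2 h1, ?_⟩
    intro l _
    by_cases hl : l = 2 ∨ (l : ℤ) ∣ b * (a ^ 2 - 4 * b)
    · exact (hbad l hl).2 (h2 l)
    · by_cases hlS : l ∈ S
      · exact (sol_split hbw hS hV hlS hsq hB).2 (h3 l hlS)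
      · push Not at hl
        have hlp : l.Prime := Fact.out
        have hlD : ¬ (l : ℤ) ∣ D := by
          intro hd
          rw [hDdef, Int.natCast_dvd_natCast] at hd
          obtain ⟨p, hp, hd'⟩ := (Prime.dvd_finsetProd_iff hlp.prime _).1 hd
          have h4 : l = p := (Nat.prime_dvd_prime_iff_eq hlp (hS p hp).1).1 hd'
          exact hlS (h4 ▸ hp)
        have hlI : Prime (l : ℤ) := Nat.prime_iff_prime_int.1 hlp
        refine sol_good (b := b * D ^ 2) hB.symm hl.1 ?_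
        intro hd
        have e1 : b * D ^ 2 * ((a * D) ^ 2 - 4 * (b * D ^ 2)) =
            (b * (a ^ 2 - 4 * b)) * (D ^ 2 * D ^ 2) := by ring
        rw [e1] at hd
        rcases hlI.dvd_or_dvd hd with h | h
        · exact hl.2 h
        · rcases hlI.dvd_or_dvd h with h | h <;> exact hlD (hlI.dvd_of_dvd_pow h)

/-- all classes of the twist are of this form -/
theorem class_form {b : ℤ} (hb : b ≠ 0) {B : ℤ} (hbB : b ∣ B) {S : Finset ℕ}
    (hS : ∀ p ∈ S, Spl B p) {b₁ : ℤ} (hsq : Squarefree b₁)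
    (hd : b₁ ∣ b * ((∏ p ∈ S, p : ℕ) : ℤ) ^ 2) :
    ∃ (u : ℤ) (V : Finset ℕ), V ⊆ S ∧ u ∣ b ∧ Squarefree u ∧ b₁ = u * ((∏ p ∈ V, p : ℕ) : ℤ) := by
  set V : Finset ℕ := S.filter fun p : ℕ => (p : ℤ) ∣ b₁ with hVdef
  have hVS : V ⊆ S := filter_subset _ _
  have hcop : ((V : Set ℕ)).Pairwise fun p q => IsCoprime (p : ℤ) (q : ℤ) := by
    intro p hp q hq hpq
    have hp' := (hS p (hVS hp)).1
    have hq' := (hS q (hVS hq)).1
    exact Nat.isCoprime_iff_coprime.2 ((Nat.coprime_primes hp' hq').2 hpq)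
  have hPd : ((∏ p ∈ V, p : ℕ) : ℤ) ∣ b₁ := by
    push_cast
    exact Finset.prod_dvd_of_coprime hcop fun p hp => (mem_filter.1 hp).2
  obtain ⟨u, hu⟩ := hPd
  have hb10 : b₁ ≠ 0 := hsq.ne_zero
  refine ⟨u, V, hVS, ?_, ?_, by rw [hu]; ring⟩
  · -- `u` is prime to the primes of `S`
    have hus : ∀ p ∈ S, IsCoprime u (p : ℤ) := by
      intro p hp
      have hpp := (hS p hp).1
      have hpI : Prime (p : ℤ) := Nat.prime_iff_prime_int.1 hpp
      refine (IsCoprime.symm ((Prime.coprime_iff_not_dvd hpI).2 ?_))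
      intro hpu
      have hpb : (p : ℤ) ∣ b₁ := by
        rw [hu]
        exact Dvd.dvd.mul_left hpu _
      have hpV : p ∈ V := mem_filter.2 ⟨hp, hpb⟩
      have hpP : (p : ℤ) ∣ ((∏ p ∈ V, p : ℕ) : ℤ) := by
        exact_mod_cast dvd_prod_of_mem (fun p => p) hpV
      have : (p : ℤ) * p ∣ b₁ := by
        rw [hu]
        exact mul_dvd_mul hpP hpu
      exact hpI.not_unit (hsq _ this)
    have huD : IsCoprime u (((∏ p ∈ S, p : ℕ) : ℤ) ^ 2) := by
      apply IsCoprime.pow_right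
      push_cast
      exact IsCoprime.prod_right fun p hp => hus p hp
    have h1 : u ∣ b * ((∏ p ∈ S, p : ℕ) : ℤ) ^ 2 := (Dvd.intro_left _ hu.symm).trans hd
    exact huD.dvd_of_dvd_mul_right h1
  · exact hsq.squarefree_of_dvd (Dvd.intro_left _ hu.symm)

end Pool.Agent.H718.GE
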