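import Pool.Graph.R_seed8.R338.EQ.SymRow

/-!
# The number of the symmetric forms over the field with two elements with a radical of given dimension

After `Pool/Agent/Y31/XL/REC.lean` (the case of the field with three elements).
-/

set_option autoImplicit false

open scoped Classical

namespace Pool.Agent.H718.GE.Rec

open Function Module
open Pool.Agent.Y759.CX (fr)
open Pool.Agent.Y219.CQ (F Sy card_symm card_mod)

/-- the number of the elements of the radical of a form -/
noncomputable def nR {V : Type} [AddCommGroup V] [Module F V] (S : Sy V) : ℕ :=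
  Nat.card {x : V // ∀ y, S.1 x y = 0}

section

set_option linter.unusedSectionVars false

variable {V W : Type} [AddCommGroup V] [Module F V] [Finite V]
  [AddCommGroup W] [Module F W] [Finite W]

theorem exists_pi (x : V) (hx : x ≠ 0) (h : finrank F V = finrank F W + 1) :
    ∃ (π : V →ₗ[F] W) (s : W →ₗ[F] V), (∀ w, π (s w) = w) ∧
      LinearMap.ker π = Submodule.span F {x} := by
  have h1 : finrank F (Submodule.span F {x}) = 1 := finrank_span_singleton hx
  have h2 := Submodule.finrank_quotient_add_finrank (Submodule.span F {x})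
  have h3 : finrank F (V ⧸ Submodule.span F {x}) = finrank F W := by omega
  let e : (V ⧸ Submodule.span F {x}) ≃ₗ[F] W := LinearEquiv.ofFinrankEq _ _ h3
  let π : V →ₗ[F] W := e.toLinearMap ∘ₗ (Submodule.span F {x}).mkQ
  have hπ : LinearMap.range π = ⊤ := by
    rw [LinearMap.range_eq_top]
    exact e.surjective.comp (Submodule.mkQ_surjective _)
  obtain ⟨s, hs⟩ := π.exists_rightInverse_of_surjective hπ
  refine ⟨π, s, fun w => LinearMap.congr_fun hs w, ?_⟩
  show LinearMap.ker (e.toLinearMap ∘ₗ (Submodule.span F {x}).mkQ) = _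
  rw [LinearEquiv.ker_comp, Submodule.ker_mkQ]

theorem card_pre (π : V →ₗ[F] W) (s : W →ₗ[F] V) (hs : ∀ w, π (s w) = w) (Q : W → Prop) :
    Nat.card {y // Q (π y)} = Nat.card {w // Q w} * Nat.card (LinearMap.ker π) := by
  rw [← Nat.card_prod]
  have h0 : ∀ (w : W) (k : LinearMap.ker π), π ((k : V) + s w) = w := fun w k => by
    rw [map_add, hs, LinearMap.mem_ker.1 k.2, zero_add]
  refine Nat.card_congr ?_
  exact {
    toFun := fun x => (⟨π x.1, x.2⟩, ⟨x.1 - s (π x.1), by
      rw [LinearMap.mem_ker, map_sub, hs, sub_self]⟩)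
    invFun := fun x => ⟨x.2.1 + s x.1.1, by
      rw [h0 x.1.1 x.2]
      exact x.1.2⟩
    left_inv := fun x => Subtype.ext (sub_add_cancel _ _)
    right_inv := fun x => by
      refine Prod.ext (Subtype.ext (h0 x.1.1 x.2)) (Subtype.ext ?_)
      show x.2.1 + s x.1.1 - s (π (x.2.1 + s x.1.1)) = x.2.1
      rw [h0 x.1.1 x.2, add_sub_cancel_right] }

theorem card_x (x : V) (hx : x ≠ 0) (h : finrank F V = finrank F W + 1) (r : ℕ) :
    Nat.card {S : Sy V // (∀ y, S.1 x y = 0) ∧ nR S = 2 ^ (r + 1)} =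
      Nat.card {T : Sy W // nR T = 2 ^ r} := by
  obtain ⟨π, s, hs, hk⟩ := exists_pi (W := W) x hx h
  have hπx : π x = 0 := by
    rw [← LinearMap.mem_ker, hk]
    exact Submodule.mem_span_singleton_self x
  have hker : Nat.card (LinearMap.ker π) = 2 := by
    rw [hk, card_mod, finrank_span_singleton hx, pow_one]
  -- pull back
  let f : Sy W → Sy V := fun T => ⟨T.1.compl₁₂ π π, fun y z => T.2 (π y) (π z)⟩
  have hf : ∀ (T : Sy W) (y z : V), (f T).1 y z = T.1 (π y) (π z) := fun _ _ _ => rfl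
  have hnR : ∀ T : Sy W, nR (f T) = 2 * nR T := by
    intro T
    have h1 : nR (f T) = Nat.card {y : V // ∀ w, T.1 (π y) w = 0} := by
      refine Nat.card_congr (Equiv.subtypeEquivRight fun y => ?_)
      constructor
      · intro h2 w
        have h3 := h2 (s w)
        rw [hf, hs] at h3
        exact h3
      · intro h2 z
        rw [hf]
        exact h2 (π z)
    rw [h1, card_pre π s hs (fun v : W => ∀ w, T.1 v w = 0), hker, mul_comm]
    rfl
  have hinj : Injective f := by
    intro T T' hT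
    refine Subtype.ext (LinearMap.ext fun v => LinearMap.ext fun w => ?_)
    have h1 : (f T).1 (s v) (s w) = (f T').1 (s v) (s w) := by rw [hT]
    rwa [hf, hf, hs, hs] at h1
  let g : {T : Sy W // nR T = 2 ^ r} → {S : Sy V // (∀ y, S.1 x y = 0) ∧ nR S = 2 ^ (r + 1)} :=
    fun T => ⟨f T.1, fun y => by rw [hf, hπx, map_zero, LinearMap.zero_apply], by
      rw [hnR, T.2, pow_succ, mul_comm]⟩
  symm
  refine Nat.card_congr (Equiv.ofBijective g ⟨?_, ?_⟩)
  · intro T T' hT
    exact Subtype.ext (hinj (congrArg (fun S => S.1) hT))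
  · rintro ⟨S, hS1, hS2⟩
    have hS3 : ∀ k ∈ LinearMap.ker π, ∀ y, S.1 k y = 0 := by
      intro k hk' y
      rw [hk, Submodule.mem_span_singleton] at hk'
      obtain ⟨c, rfl⟩ := hk'
      rw [map_smul, LinearMap.smul_apply, hS1, smul_zero]
    have hS4 : ∀ y z, S.1 (s (π y)) z = S.1 y z := by
      intro y z
      have h1 : s (π y) - y ∈ LinearMap.ker π := by
        rw [LinearMap.mem_ker, map_sub, hs, sub_self]
      have h2 := hS3 _ h1 z
      rw [map_sub, LinearMap.sub_apply, sub_eq_zero] at h2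
      exact h2
    let T : Sy W := ⟨S.1.compl₁₂ s s, fun v w => S.2 (s v) (s w)⟩
    have hT : f T = S := by
      refine Subtype.ext (LinearMap.ext fun y => LinearMap.ext fun z => ?_)
      show S.1 (s (π y)) (s (π z)) = S.1 y z
      rw [hS4, S.2, hS4, S.2]
    have hT' : nR T = 2 ^ r := by
      have h1 := hnR T
      rw [hT, hS2, pow_succ, mul_comm] at h1
      exact (Nat.eq_of_mul_eq_mul_left (by norm_num) h1).symm
    exact ⟨⟨T, hT'⟩, Subtype.ext hT⟩

omit [Finite V] in
theorem card_Sy [Finite V] : Nat.card (Sy V) = 2 ^ (finrank F V * (finrank F V + 1) / 2) := by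
  obtain ⟨n, hn⟩ : ∃ n, n = finrank F V := ⟨_, rfl⟩
  rw [← hn]
  let b : Basis (Fin n) F V := Module.finBasisOfFinrankEq F V hn.symm
  have hsymm : ∀ S : V →ₗ[F] V →ₗ[F] F, S ∈ Sy V ↔
      ((LinearMap.BilinForm.toMatrix b).toEquiv S).IsSymm := by
    intro S
    refine Iff.trans ?_ (LinearMap.BilinForm.isSymm_toMatrix_iff_isSymm (B := S) b).symm
    exact ⟨fun h => ⟨fun x y => h x y⟩, fun h x y => h.eq x y⟩
  have e1 : Sy V ≃ {M : Matrix (Fin n) (Fin n) F // M.IsSymm} :=
    Equiv.subtypeEquiv (LinearMap.BilinForm.toMatrix b).toEquiv hsymm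
  rw [Nat.card_congr e1, card_symm]

theorem card_rad (S : Sy V) : Nat.card {x : V // x ≠ 0 ∧ ∀ y, S.1 x y = 0} + 1 = nR S := by
  have := Fintype.ofFinite V
  have h0 : ∀ y, S.1 (0 : V) y = 0 := fun y => by rw [map_zero, LinearMap.zero_apply]
  unfold nR
  rw [Nat.card_eq_fintype_card, Nat.card_eq_fintype_card, Fintype.card_subtype,
    Fintype.card_subtype]
  have h1 : (Finset.univ.filter fun x : V => ∀ y, S.1 x y = 0) =
      insert 0 (Finset.univ.filter fun x : V => x ≠ 0 ∧ ∀ y, S.1 x y = 0) := by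
    ext x
    simp only [Finset.mem_filter, Finset.mem_univ, true_and, Finset.mem_insert]
    constructor
    · intro h2
      by_cases hx : x = 0
      · exact Or.inl hx
      · exact Or.inr ⟨hx, h2⟩
    · rintro (rfl | h2)
      · exact h0
      · exact h2.2
  rw [h1, Finset.card_insert_of_notMem]
  simp

theorem count (h : finrank F V = finrank F W + 1) (r : ℕ) :
    Nat.card {S : Sy V // nR S = 2 ^ (r + 1)} * (2 ^ (r + 1) - 1) =
      (2 ^ finrank F V - 1) * Nat.card {T : Sy W // nR T = 2 ^ r} := by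
  have := Fintype.ofFinite V
  have := Fintype.ofFinite {S : Sy V // nR S = 2 ^ (r + 1)}
  have e : (Σ S : {S : Sy V // nR S = 2 ^ (r + 1)}, {x : V // x ≠ 0 ∧ ∀ y, S.1.1 x y = 0}) ≃
      (Σ x : {x : V // x ≠ 0}, {S : Sy V // (∀ y, S.1 x.1 y = 0) ∧ nR S = 2 ^ (r + 1)}) :=
    { toFun := fun q => ⟨⟨q.2.1, q.2.2.1⟩, ⟨q.1.1, q.2.2.2, q.1.2⟩⟩
      invFun := fun q => ⟨⟨q.2.1, q.2.2.2⟩, ⟨q.1.1, q.1.2, q.2.2.1⟩⟩
      left_inv := fun q => rfl
      right_inv := fun q => rfl }
  have hA : ∀ S : {S : Sy V // nR S = 2 ^ (r + 1)},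
      Nat.card {x : V // x ≠ 0 ∧ ∀ y, S.1.1 x y = 0} = 2 ^ (r + 1) - 1 := by
    intro S
    have h2 := card_rad S.1
    rw [S.2] at h2
    omega
  have h1 := Nat.card_congr e
  have hB : ∀ x : {x : V // x ≠ 0},
      Nat.card {S : Sy V // (∀ y, S.1 x.1 y = 0) ∧ nR S = 2 ^ (r + 1)} =
        Nat.card {T : Sy W // nR T = 2 ^ r} := fun x => card_x x.1 x.2 h r
  rw [Nat.card_sigma, Nat.card_sigma] at h1
  simp only [hA, hB, Finset.sum_const, smul_eq_mul, Finset.card_univ] at h1
  rw [← Nat.card_eq_fintype_card] at h1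
  have h3 : Fintype.card {x : V // x ≠ 0} = 2 ^ finrank F V - 1 := by
    rw [← card_mod, Nat.card_eq_fintype_card, Fintype.card_subtype_compl]
    simp
  rw [h3] at h1
  exact h1

end

/-- XL-REC: the number of the symmetric forms with a radical of given dimension. -/
theorem t_REC (V W : Type) [AddCommGroup V] [Module F V] [Finite V]
    [AddCommGroup W] [Module F W] [Finite W] (r : ℕ) (h' : finrank F V = finrank F W + 1) :
    ((2 : ℝ) ^ (r + 1) - 1) * fr (fun S : Sy V => nR S = 2 ^ (r + 1)) =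
      (1 - (1 / 2 : ℝ) ^ finrank F V) * fr (fun S : Sy W => nR S = 2 ^ r) := by
  have h : finrank F V = finrank F W + 1 := h'
  have h1 := count (V := V) (W := W) h r
  have h2 := card_Sy (V := V)
  have h3 := card_Sy (V := W)
  have h4 : finrank F V * (finrank F V + 1) / 2 =
      finrank F V + finrank F W * (finrank F W + 1) / 2 := by
    rw [h]
    have : (finrank F W + 1) * (finrank F W + 1 + 1) =
        (finrank F W + 1) * 2 + finrank F W * (finrank F W + 1) := by ring
    rw [this]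
    generalize finrank F W * (finrank F W + 1) = A
    omega
  rw [h4, pow_add] at h2
  have h5 : ((2 : ℝ) ^ (r + 1) - 1) * (Nat.card {S : Sy V // nR S = 2 ^ (r + 1)} : ℝ) =
      ((2 : ℝ) ^ finrank F V - 1) * (Nat.card {T : Sy W // nR T = 2 ^ r} : ℝ) := by
    have h6 : ∀ k : ℕ, ((2 ^ k - 1 : ℕ) : ℝ) = (2 : ℝ) ^ k - 1 := fun k => by
      rw [Nat.cast_sub (Nat.one_le_pow _ _ (by norm_num))]
      push_cast
      rfl
    rw [← h6, ← h6]
    rw [mul_comm]
    exact_mod_cast h1
  have h7 : (Nat.card (Sy V) : ℝ) = 2 ^ finrank F V * Nat.card (Sy W) := by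
    rw [h2, h3]
    push_cast
    rfl
  have h8 : (Nat.card (Sy W) : ℝ) ≠ 0 := by
    rw [h3]
    positivity
  have h9 : (2 : ℝ) ^ finrank F V ≠ 0 := by positivity
  unfold fr
  rw [← mul_div_assoc, ← mul_div_assoc, h5, h7, one_div, inv_pow, div_eq_div_iff
    (mul_ne_zero h9 h8) h8]
  have h10 : (1 - ((2 : ℝ) ^ finrank F V)⁻¹) * 2 ^ finrank F V = 2 ^ finrank F V - 1 := by
    rw [sub_mul, one_mul, inv_mul_cancel₀ h9]
  rw [← h10]
  ring

end Pool.Agent.H718.GE.Rec
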